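import Pool.Agent.T2h33.LC.Stm

set_option autoImplicit false

open MeasureTheory ProbabilityTheory Filter Topology Set
open scoped NNReal ENNReal unitInterval

namespace Pool.Agent.T2h33.LC

theorem prove_ATO : S_ATO := by
  intro u v w z₁ z₂ z₃ hu hv hw h12 h23 η hη
  have h13 : z₁ < z₃ := h12.trans h23
  have e1 : at3 u v w z₁ z₂ z₃ {z₁} = ENNReal.ofReal u := by
    unfold at3
    simp [h12.ne', h13.ne']
  have e2 : at3 u v w z₁ z₂ z₃ {z₂} = ENNReal.ofReal v := by
    unfold at3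
    simp [h12.ne, h23.ne']
  have e3 : at3 u v w z₁ z₂ z₃ {z₃} = ENNReal.ofReal w := by
    unfold at3
    simp [h13.ne, h23.ne]
  have e0 : at3 u v w z₁ z₂ z₃ ({z₁, z₂, z₃}ᶜ) = 0 := by
    unfold at3
    simp
  have f1 := (Measure.le_iff'.1 hη {z₁}).trans e1.le
  have f2 := (Measure.le_iff'.1 hη {z₂}).trans e2.le
  have f3 := (Measure.le_iff'.1 hη {z₃}).trans e3.le
  have f0 : η ({z₁, z₂, z₃}ᶜ) = 0 := le_antisymm ((Measure.le_iff'.1 hη _).trans e0.le) bot_le
  have hfin : ∀ z x : ℝ, η {z} ≤ ENNReal.ofReal x → ENNReal.ofReal (η {z}).toReal = η {z} :=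
    fun z x h => ENNReal.ofReal_toReal (h.trans_lt ENNReal.ofReal_lt_top).ne
  refine ⟨(η {z₁}).toReal, (η {z₂}).toReal, (η {z₃}).toReal, ENNReal.toReal_nonneg,
    ENNReal.toReal_le_of_le_ofReal hu f1, ENNReal.toReal_nonneg,
    ENNReal.toReal_le_of_le_ofReal hv f2, ENNReal.toReal_nonneg,
    ENNReal.toReal_le_of_le_ofReal hw f3, ?_⟩
  unfold at3
  rw [hfin z₁ u f1, hfin z₂ v f2, hfin z₃ w f3]
  rw [← Measure.restrict_singleton, ← Measure.restrict_singleton, ← Measure.restrict_singleton]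
  have hK : MeasurableSet ({z₁, z₂, z₃} : Set ℝ) := (Set.toFinite _).measurableSet
  have g1 : η.restrict {z₁, z₂, z₃} = η.restrict {z₁} + η.restrict {z₂} + η.restrict {z₃} := by
    have : ({z₁, z₂, z₃} : Set ℝ) = ({z₁} ∪ {z₂}) ∪ {z₃} := by
      ext x; simp; tauto
    rw [this, Measure.restrict_union (by simp [h13.ne', h23.ne', h13.ne, h23.ne])
      (measurableSet_singleton _), Measure.restrict_union (by simp [h12.ne', h12.ne])
      (measurableSet_singleton _)]
  rw [← g1]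
  conv_lhs => rw [← Measure.restrict_add_restrict_compl (μ := η) hK, Measure.restrict_eq_zero.2 f0,
    add_zero]

end Pool.Agent.T2h33.LC
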