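import Pool.Agent.T2h33.LC.Stm

set_option autoImplicit false

open MeasureTheory ProbabilityTheory Filter Topology Set
open scoped NNReal ENNReal unitInterval

namespace Pool.Agent.T2h33.LC

theorem ae_smul_dirac' {p : D01 → Prop} {x : D01} (c : ℝ≥0∞) (hp : p x) :
    ∀ᵐ y ∂(c • Measure.dirac x), p y := by
  refine Measure.ae_smul_measure ?_ c
  rw [ae_dirac_eq]
  exact hp

theorem ae_PN {p : D01 → Prop} (N : ℕ) (hA : ∀ i < N, p (xA i)) (h1 : p (xN N (N + 1) 0))
    (h2 : p (xN N (N + 1) 1)) (h3 : p (xN N N (-1))) (h4 : p (xN N N 1)) :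
    ∀ᵐ x ∂(PN N), p x := by
  unfold PN
  rw [ae_add_measure_iff]
  refine ⟨?_, ?_⟩
  · have hsum : ∀ s : Finset ℕ, (∀ i ∈ s, p (xA i)) →
        ∀ᵐ x ∂(∑ i ∈ s, ENNReal.ofReal (w i) • Measure.dirac (xA i)), p x := by
      intro s
      induction s using Finset.induction_on with
      | empty => intro _; simp
      | insert i s hi ih =>
        intro h
        rw [Finset.sum_insert hi, ae_add_measure_iff]
        exact ⟨ae_smul_dirac' _ (h i (Finset.mem_insert_self _ _)),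
          ih fun j hj => h j (Finset.mem_insert_of_mem hj)⟩
    exact hsum _ fun i hi => hA i (Finset.mem_range.mp hi)
  · rw [ae_add_measure_iff, ae_add_measure_iff, ae_add_measure_iff]
    exact ⟨⟨⟨ae_smul_dirac' _ h1, ae_smul_dirac' _ h2⟩, ae_smul_dirac' _ h3⟩, ae_smul_dirac' _ h4⟩

theorem prove_CST (h1 : S_GRD) : S_CST := by
  intro N j
  obtain ⟨g1, g2, -, g4⟩ := h1 N j
  have hN : ∀ (e : ℕ) (z : ℝ), ∀ s : I, (grid N).t j.castSucc ≤ s → s < (grid N).t j.succ →
      (xN N e z).1 s = (xN N e z).1 ((grid N).t j.castSucc) := by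
    intro e z s hs1 hs2
    obtain ⟨k1, k2⟩ := g4 s hs1 hs2
    rw [xN_lt N e z k1, xN_lt N e z g1]
    unfold bN
    rw [k2, min_eq_left g2]
  refine ae_PN N ?_ (hN _ _) (hN _ _) (hN _ _) (hN _ _)
  intro i hi s hs1 hs2
  obtain ⟨k1, k2⟩ := g4 s hs1 hs2
  rw [xA_lt i k1, xA_lt i g1]
  rcases le_total (idx s) N with h | h
  · rw [min_eq_left h] at k2
    rw [k2]
  · rw [min_eq_right h] at k2
    rw [← k2]
    unfold bA
    rw [if_neg (by omega), if_neg (by omega)]

end Pool.Agent.T2h33.LC
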