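import Pool.Agent.T2h33.LC.Stm

set_option autoImplicit false

open MeasureTheory ProbabilityTheory Filter Topology Set
open scoped NNReal ENNReal unitInterval

namespace Pool.Agent.T2h33.LC

theorem prove_GRD : S_GRD := by
  intro N j
  have hj : (j : ℕ) + 1 ≤ 2 ^ N := j.2
  set t : I := (grid N).t j.castSucc with htdef
  set t' : I := (grid N).t j.succ with htdef'
  have hp : (0 : ℝ) < (1 / 2 : ℝ) ^ N := by positivity
  have hpN : (2 : ℝ) ^ N * (1 / 2 : ℝ) ^ N = 1 := by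
    rw [← mul_pow]; norm_num
  have ht : (t : ℝ) = (j : ℝ) * (1 / 2 : ℝ) ^ N := by
    rw [htdef]
    show (((j.castSucc : Fin (2 ^ N + 1)) : ℕ) : ℝ) / 2 ^ N = _
    rw [Fin.val_castSucc, one_div_pow]
    ring
  have ht' : (t' : ℝ) = ((j : ℝ) + 1) * (1 / 2 : ℝ) ^ N := by
    rw [htdef']
    show (((j.succ : Fin (2 ^ N + 1)) : ℕ) : ℝ) / 2 ^ N = _
    rw [Fin.val_succ, one_div_pow]
    push_cast
    ring
  have hjR : (j : ℝ) + 1 ≤ 2 ^ N := by exact_mod_cast hj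
  have ht1 : (t : ℝ) ≤ 1 - (1 / 2 : ℝ) ^ N := by
    rw [ht]
    nlinarith
  have htlt : (t : ℝ) < 1 := by linarith
  have htt' : (t : ℝ) < t' := by
    rw [ht, ht']
    nlinarith
  obtain ⟨k, hk⟩ : ∃ k, idx t = k := ⟨_, rfl⟩
  have h1 := (idx_eq_iff htlt k).1 hk
  have hkN : k ≤ N := by
    by_contra hcon
    push Not at hcon
    have h7 : (1 / 2 : ℝ) ^ k ≤ (1 / 2 : ℝ) ^ (N + 1) :=
      pow_le_pow_of_le_one (by norm_num) (by norm_num) (by omega)
    have h8 : (1 / 2 : ℝ) ^ (N + 1) = (1 / 2 : ℝ) ^ N / 2 := by rw [pow_succ]; ring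
    linarith [h1.1]
  refine ⟨htlt, by rw [hk]; exact hkN, ?_, ?_⟩
  · rcases eq_or_lt_of_le hkN with hkN' | hkN'
    · left
      refine ⟨?_, by rw [hk, hkN']⟩
      apply Subtype.ext
      rw [ht']
      have h2 : 1 - (1 / 2 : ℝ) ^ N ≤ t := by rw [← hkN']; exact h1.1
      rw [ht] at h2
      have h3 : (j : ℝ) + 1 = 2 ^ N := by
        apply le_antisymm hjR
        have h4 : (1 : ℝ) ≤ ((j : ℝ) + 1) * (1 / 2 : ℝ) ^ N := by linarith
        calc (2 : ℝ) ^ N = 2 ^ N * 1 := by ring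
          _ ≤ 2 ^ N * (((j : ℝ) + 1) * (1 / 2 : ℝ) ^ N) := by
              apply mul_le_mul_of_nonneg_left h4 (by positivity)
          _ = ((j : ℝ) + 1) * (2 ^ N * (1 / 2 : ℝ) ^ N) := by ring
          _ = (j : ℝ) + 1 := by rw [hpN, mul_one]
      rw [h3, hpN]
      rfl
    · right
      have hpk : (0 : ℝ) < (1 / 2 : ℝ) ^ (k + 1) := by positivity
      have hpw : (1 / 2 : ℝ) ^ (k + 1) = (2 : ℝ) ^ (N - (k + 1)) * (1 / 2 : ℝ) ^ N := by
        obtain ⟨d, rfl⟩ : ∃ d, N = (k + 1) + d := ⟨N - (k + 1), by omega⟩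
        rw [Nat.add_sub_cancel_left, pow_add (1 / 2 : ℝ) (k + 1) d]
        have : (2 : ℝ) ^ d * (1 / 2 : ℝ) ^ d = 1 := by rw [← mul_pow]; norm_num
        calc (1 / 2 : ℝ) ^ (k + 1) = (1 / 2 : ℝ) ^ (k + 1) * 1 := by ring
          _ = (1 / 2 : ℝ) ^ (k + 1) * ((2 : ℝ) ^ d * (1 / 2 : ℝ) ^ d) := by rw [this]
          _ = _ := by ring
      have hle : (t' : ℝ) ≤ 1 - (1 / 2 : ℝ) ^ (k + 1) := by
        have h2 : (j : ℝ) * (1 / 2 : ℝ) ^ N < (2 ^ N - 2 ^ (N - (k + 1))) * (1 / 2 : ℝ) ^ N := by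
          rw [← ht, sub_mul, hpN, ← hpw]
          exact h1.2
        have h3 : (j : ℝ) < 2 ^ N - 2 ^ (N - (k + 1)) := lt_of_mul_lt_mul_right h2 hp.le
        have h4 : (j : ℕ) + 2 ^ (N - (k + 1)) < 2 ^ N := by
          have : (j : ℝ) + 2 ^ (N - (k + 1)) < 2 ^ N := by linarith
          exact_mod_cast this
        have h5 : (j : ℝ) + 1 + 2 ^ (N - (k + 1)) ≤ 2 ^ N := by
          have : (j : ℕ) + 1 + 2 ^ (N - (k + 1)) ≤ 2 ^ N := by omega
          exact_mod_cast this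
        have h6 : ((j : ℝ) + 1) * (1 / 2 : ℝ) ^ N ≤ (2 ^ N - 2 ^ (N - (k + 1))) * (1 / 2 : ℝ) ^ N :=
          mul_le_mul_of_nonneg_right (by linarith) hp.le
        rw [sub_mul, hpN, ← hpw, ← ht'] at h6
        exact h6
      have hlt : (t' : ℝ) < 1 := by linarith
      refine ⟨hlt, ?_, ?_⟩
      · rcases eq_or_lt_of_le hle with h | h
        · have : idx t' = k + 1 := (idx_eq_iff hlt (k + 1)).2 ⟨h.ge, by
            rw [h]
            have : (1 / 2 : ℝ) ^ (k + 1 + 1) < (1 / 2 : ℝ) ^ (k + 1) :=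
              pow_lt_pow_right_of_lt_one₀ (by norm_num) (by norm_num) (by omega)
            linarith⟩
          omega
        · have : idx t' = k := (idx_eq_iff hlt k).2 ⟨by linarith [h1.1], h⟩
          omega
      · rcases eq_or_lt_of_le hle with h | h
        · right
          rw [hk]
          exact (idx_eq_iff hlt (k + 1)).2 ⟨h.ge, by
            rw [h]
            have : (1 / 2 : ℝ) ^ (k + 1 + 1) < (1 / 2 : ℝ) ^ (k + 1) :=
              pow_lt_pow_right_of_lt_one₀ (by norm_num) (by norm_num) (by omega)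
            linarith⟩
        · left
          rw [hk]
          exact (idx_eq_iff hlt k).2 ⟨by linarith [h1.1], h⟩
  · intro s hs1 hs2
    have hs1' : (t : ℝ) ≤ s := hs1
    have hs2' : (s : ℝ) < t' := hs2
    have ht'1 : (t' : ℝ) ≤ 1 := t'.2.2
    have hs : (s : ℝ) < 1 := by linarith
    refine ⟨hs, ?_⟩
    rw [hk]
    rcases eq_or_lt_of_le hkN with hkN' | hkN'
    · have := idx_mono hs1 hs
      rw [hk] at this
      rw [min_eq_right (by omega)]
      exact hkN'.symm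
    · have hpw : (1 / 2 : ℝ) ^ (k + 1) = (2 : ℝ) ^ (N - (k + 1)) * (1 / 2 : ℝ) ^ N := by
        obtain ⟨d, rfl⟩ : ∃ d, N = (k + 1) + d := ⟨N - (k + 1), by omega⟩
        rw [Nat.add_sub_cancel_left, pow_add (1 / 2 : ℝ) (k + 1) d]
        have : (2 : ℝ) ^ d * (1 / 2 : ℝ) ^ d = 1 := by rw [← mul_pow]; norm_num
        calc (1 / 2 : ℝ) ^ (k + 1) = (1 / 2 : ℝ) ^ (k + 1) * 1 := by ring
          _ = (1 / 2 : ℝ) ^ (k + 1) * ((2 : ℝ) ^ d * (1 / 2 : ℝ) ^ d) := by rw [this]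
          _ = _ := by ring
      have hle : (t' : ℝ) ≤ 1 - (1 / 2 : ℝ) ^ (k + 1) := by
        have h2 : (j : ℝ) * (1 / 2 : ℝ) ^ N < (2 ^ N - 2 ^ (N - (k + 1))) * (1 / 2 : ℝ) ^ N := by
          rw [← ht, sub_mul, hpN, ← hpw]
          exact h1.2
        have h3 : (j : ℝ) < 2 ^ N - 2 ^ (N - (k + 1)) := lt_of_mul_lt_mul_right h2 hp.le
        have h4 : (j : ℕ) + 2 ^ (N - (k + 1)) < 2 ^ N := by
          have : (j : ℝ) + 2 ^ (N - (k + 1)) < 2 ^ N := by linarith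
          exact_mod_cast this
        have h5 : (j : ℝ) + 1 + 2 ^ (N - (k + 1)) ≤ 2 ^ N := by
          have : (j : ℕ) + 1 + 2 ^ (N - (k + 1)) ≤ 2 ^ N := by omega
          exact_mod_cast this
        have h6 : ((j : ℝ) + 1) * (1 / 2 : ℝ) ^ N ≤ (2 ^ N - 2 ^ (N - (k + 1))) * (1 / 2 : ℝ) ^ N :=
          mul_le_mul_of_nonneg_right (by linarith) hp.le
        rw [sub_mul, hpN, ← hpw, ← ht'] at h6
        exact h6
      have : idx s = k := (idx_eq_iff hs k).2 ⟨by linarith [h1.1], by linarith⟩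
      rw [this, min_eq_left hkN]

end Pool.Agent.T2h33.LC
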