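import Pool.Agent.T2h33.LC.LW1

set_option autoImplicit false

open MeasureTheory ProbabilityTheory Filter Topology Set
open scoped NNReal ENNReal unitInterval

namespace Pool.Agent.T2h33.LC

theorem LW1_le (h1 : S_LW1) {n N : ℕ} (h : n ≤ N) {s u : I} (hs : (s : ℝ) < 1) (hu : (u : ℝ) < 1)
    (hsn : idx s ≤ n) (hun : idx u ≤ n) :
    (PN N).map (fun x : D01 => (x.1 s, x.1 u)) = (PN n).map (fun x : D01 => (x.1 s, x.1 u)) := by
  induction N, h using Nat.le_induction with
  | base => rfl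
  | succ N hN ih => rw [h1 N s u hs hu (hsn.trans hN) (hun.trans hN), ih]

theorem sum_smul_const {β : Type*} [MeasurableSpace β] (μ : Measure β) (n : ℕ) :
    ∑ i ∈ Finset.range n, ENNReal.ofReal (w i) • μ = ENNReal.ofReal (1 - m n - m (n + 1)) • μ := by
  rw [← Finset.sum_smul, ← ENNReal.ofReal_sum_of_nonneg (fun i _ => (w_pos i).le), sum_w]

theorem prove_LW0 (h1 : S_LW1) : S_LW0 := by
  intro N k s u hs hu hsk huk hkN
  rw [LW1_le h1 hkN hs hu hsk.le huk.le, map_PN (meas_two s u)]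
  have hd : Measurable fun y : ℝ => (y, y) := measurable_id.prodMk measurable_id
  unfold S
  rw [Measure.map_add _ _ hd, Measure.map_add _ _ hd, Measure.map_smul, Measure.map_smul,
    Measure.map_smul, Measure.map_dirac' hd, Measure.map_dirac' hd, Measure.map_dirac' hd]
  simp only [xA_lt _ hs, xA_lt _ hu, xN_lt _ _ _ hs, xN_lt _ _ _ hu, hsk, huk, bN_le le_rfl,
    pos_self, pos_succ_self]
  have e : ∑ i ∈ Finset.range k, ENNReal.ofReal (w i) • Measure.dirac (bA i k, bA i k) =
      ∑ i ∈ Finset.range k, ENNReal.ofReal (w i) • Measure.dirac ((1 : ℝ), (1 : ℝ)) :=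
    Finset.sum_congr rfl fun i hi => by rw [bA_gt (Finset.mem_range.1 hi)]
  rw [e, sum_smul_const]
  have h2 := m_gt k
  have h3 := m_gt (k + 1)
  set A : Measure (ℝ × ℝ) := Measure.dirac (a k, a k)
  set B : Measure (ℝ × ℝ) := Measure.dirac (a (k + 1), a (k + 1))
  set C : Measure (ℝ × ℝ) := Measure.dirac (1, 1)
  have r1 : ENNReal.ofReal (3 / 10) • B + ENNReal.ofReal (m (k + 1) - 3 / 10) • B =
      ENNReal.ofReal (m (k + 1)) • B := by
    rw [ofReal_smul_add _ (by norm_num) (by linarith)]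
    congr 2; ring
  have r2 : ENNReal.ofReal (3 / 20) • A + ENNReal.ofReal (m k - 3 / 20) • A =
      ENNReal.ofReal (m k) • A := by
    rw [ofReal_smul_add _ (by norm_num) (by linarith)]
    congr 2; ring
  have r3 : (1 - m (k + 1) - m k) = 1 - m k - m (k + 1) := by ring
  rw [r1, add_assoc (ENNReal.ofReal (m (k + 1)) • B), r2, r3, add_comm]

end Pool.Agent.T2h33.LC
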