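import Pool.Agent.T2h33.LC.Stm

set_option autoImplicit false

open MeasureTheory ProbabilityTheory Filter Topology Set
open scoped NNReal ENNReal unitInterval

namespace Pool.Agent.T2h33.LC

theorem map_PN {β : Type*} [MeasurableSpace β] {f : D01 → β} (hf : Measurable f) (N : ℕ) :
    (PN N).map f = ∑ i ∈ Finset.range N, ENNReal.ofReal (w i) • Measure.dirac (f (xA i)) +
      (ENNReal.ofReal (3 / 10) • Measure.dirac (f (xN N (N + 1) 0)) +
        ENNReal.ofReal (m (N + 1) - 3 / 10) • Measure.dirac (f (xN N (N + 1) 1)) +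
        ENNReal.ofReal (3 / 20) • Measure.dirac (f (xN N N (-1))) +
        ENNReal.ofReal (m N - 3 / 20) • Measure.dirac (f (xN N N 1))) := by
  have key : ∀ n : ℕ, (∑ i ∈ Finset.range n, ENNReal.ofReal (w i) • Measure.dirac (xA i)).map f =
      ∑ i ∈ Finset.range n, ENNReal.ofReal (w i) • Measure.dirac (f (xA i)) := by
    intro n
    induction n with
    | zero => simp
    | succ n ih =>
      rw [Finset.sum_range_succ, Finset.sum_range_succ, Measure.map_add _ _ hf, ih,
        Measure.map_smul, Measure.map_dirac' hf]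
  unfold PN
  rw [Measure.map_add _ _ hf, key, Measure.map_add _ _ hf, Measure.map_add _ _ hf,
    Measure.map_add _ _ hf, Measure.map_smul, Measure.map_smul, Measure.map_smul, Measure.map_smul,
    Measure.map_dirac' hf, Measure.map_dirac' hf, Measure.map_dirac' hf, Measure.map_dirac' hf]

theorem ofReal_smul_add {β : Type*} [MeasurableSpace β] (μ : Measure β) {x y : ℝ} (hx : 0 ≤ x)
    (hy : 0 ≤ y) : ENNReal.ofReal x • μ + ENNReal.ofReal y • μ = ENNReal.ofReal (x + y) • μ := by
  rw [← add_smul, ENNReal.ofReal_add hx hy]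

theorem meas_two (s u : I) : Measurable fun x : D01 => (x.1 s, x.1 u) :=
  (meas_eval s).prodMk (meas_eval u)

theorem bN_le {N e k : ℕ} (h : k ≤ N) : bN N e k = pos e k := by
  unfold bN
  rw [min_eq_left h]

theorem bA_le {i k : ℕ} (h : k ≤ i) : bA i k = pos i k := by
  unfold bA
  rw [if_pos h]

theorem bA_gt {i k : ℕ} (h : i < k) : bA i k = 1 := by
  unfold bA
  rw [if_neg (by omega)]

theorem prove_LW1 : S_LW1 := by
  intro N s u hs hu hsN huN
  rw [map_PN (meas_two s u), map_PN (meas_two s u), Finset.sum_range_succ]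
  simp only [xA_lt _ hs, xA_lt _ hu, xN_lt _ _ _ hs, xN_lt _ _ _ hu, bN_le hsN, bN_le huN,
    bN_le (hsN.trans (Nat.le_succ N)), bN_le (huN.trans (Nat.le_succ N)), bA_le hsN, bA_le huN]
  have c1 : pos (N + 1 + 1) (idx s) = pos N (idx s) := pos_congr (by omega) _
  have c2 : pos (N + 1 + 1) (idx u) = pos N (idx u) := pos_congr (by omega) _
  rw [c1, c2, add_assoc]
  congr 1
  have hw := w_pos N
  have h1 := m_gt N
  have h2 := m_gt (N + 1)
  have h3 := m_gt (N + 1 + 1)
  set A : Measure (ℝ × ℝ) := Measure.dirac (pos N (idx s), pos N (idx u))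
  set B : Measure (ℝ × ℝ) := Measure.dirac (pos (N + 1) (idx s), pos (N + 1) (idx u))
  have r1 : ENNReal.ofReal (3 / 10) • B + ENNReal.ofReal (m (N + 1) - 3 / 10) • B =
      ENNReal.ofReal (m (N + 1)) • B := by
    rw [ofReal_smul_add _ (by norm_num) (by linarith)]
    congr 2; ring
  have r2 : ENNReal.ofReal (3 / 20) • A + ENNReal.ofReal (m N - 3 / 20) • A =
      ENNReal.ofReal (m N) • A := by
    rw [ofReal_smul_add _ (by norm_num) (by linarith)]
    congr 2; ring
  have r3 : ENNReal.ofReal (3 / 20) • B + ENNReal.ofReal (m (N + 1) - 3 / 20) • B =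
      ENNReal.ofReal (m (N + 1)) • B := by
    rw [ofReal_smul_add _ (by norm_num) (by linarith)]
    congr 2; ring
  have r4 : ENNReal.ofReal (w N) • A + (ENNReal.ofReal (3 / 10) • A +
      ENNReal.ofReal (m (N + 1 + 1) - 3 / 10) • A) = ENNReal.ofReal (m N) • A := by
    rw [ofReal_smul_add _ (by norm_num) (by linarith), ofReal_smul_add _ hw.le (by linarith)]
    congr 2; unfold w; ring
  calc ENNReal.ofReal (w N) • A + (ENNReal.ofReal (3 / 10) • A +
        ENNReal.ofReal (m (N + 1 + 1) - 3 / 10) • A + ENNReal.ofReal (3 / 20) • B +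
          ENNReal.ofReal (m (N + 1) - 3 / 20) • B)
      = (ENNReal.ofReal (w N) • A + (ENNReal.ofReal (3 / 10) • A +
        ENNReal.ofReal (m (N + 1 + 1) - 3 / 10) • A)) + (ENNReal.ofReal (3 / 20) • B +
          ENNReal.ofReal (m (N + 1) - 3 / 20) • B) := by abel
    _ = (ENNReal.ofReal (3 / 10) • B + ENNReal.ofReal (m (N + 1) - 3 / 10) • B) +
        (ENNReal.ofReal (3 / 20) • A + ENNReal.ofReal (m N - 3 / 20) • A) := by
      rw [r1, r2, r3, r4, add_comm]
    _ = _ := by abel

end Pool.Agent.T2h33.LC
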