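import Pool.Agent.T2h33.LC.LW0

set_option autoImplicit false

open MeasureTheory ProbabilityTheory Filter Topology Set
open scoped NNReal ENNReal unitInterval

namespace Pool.Agent.T2h33.LC

theorem prove_LW2 (h1 : S_LW1) : S_LW2 := by
  intro N k s u hs hu hsk huk hkN
  rw [LW1_le h1 hkN hs hu (by omega) huk.le, map_PN (meas_two s u), Finset.sum_range_succ]
  simp only [xA_lt _ hs, xA_lt _ hu, xN_lt _ _ _ hs, xN_lt _ _ _ hu, hsk, huk, bN_le le_rfl,
    bN_le (Nat.le_succ k), bA_le le_rfl, bA_gt (Nat.lt_succ_self k), pos_self, pos_succ_self]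
  have c1 : pos (k + 1 + 1) k = a k := by
    rw [pos_congr (show (k + 1 + 1) % 2 = k % 2 by omega), pos_self]
  rw [c1]
  have e : ∑ i ∈ Finset.range k, ENNReal.ofReal (w i) • Measure.dirac (bA i k, bA i (k + 1)) =
      ∑ i ∈ Finset.range k, ENNReal.ofReal (w i) • Measure.dirac ((1 : ℝ), (1 : ℝ)) :=
    Finset.sum_congr rfl fun i hi => by
      rw [bA_gt (Finset.mem_range.1 hi), bA_gt (Nat.lt_succ_of_lt (Finset.mem_range.1 hi))]
  rw [e]
  unfold cp1
  have h0 : ∑ i ∈ Finset.range k, ENNReal.ofReal (w i) • Measure.dirac ((1 : ℝ), (1 : ℝ)) =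
      ENNReal.ofReal (1 - m k - m (k + 1)) • Measure.dirac ((1 : ℝ), (1 : ℝ)) := by
    rw [← Finset.sum_smul, ← ENNReal.ofReal_sum_of_nonneg (fun i _ => (w_pos i).le), sum_w]
  rw [h0]
  have h2 := m_gt (k + 2)
  have h3 := m_gt (k + 1)
  set A : Measure (ℝ × ℝ) := Measure.dirac (a k, a (k + 1 + 1))
  set B : Measure (ℝ × ℝ) := Measure.dirac (a (k + 1), a (k + 1))
  set C : Measure (ℝ × ℝ) := Measure.dirac (1, 1)
  set D : Measure (ℝ × ℝ) := Measure.dirac (a k, 1)
  have r1 : ENNReal.ofReal (3 / 20) • B + ENNReal.ofReal (m (k + 1) - 3 / 20) • B =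
      ENNReal.ofReal (m (k + 1)) • B := by
    rw [ofReal_smul_add _ (by norm_num) (by linarith)]
    congr 2; ring
  have r2 : ENNReal.ofReal (3 / 10) • A + ENNReal.ofReal (m (k + 1 + 1) - 3 / 10) • A =
      ENNReal.ofReal (m (k + 1 + 1)) • A := by
    rw [ofReal_smul_add _ (by norm_num) (by linarith)]
    congr 2; ring
  have r3 : (1 - m (k + 1) - m k) = 1 - m k - m (k + 1) := by ring
  have r4 : w k = m k - m (k + 2) := rfl
  rw [r2, add_assoc (ENNReal.ofReal (m (k + 1 + 1)) • A), r1, r3, r4]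
  abel

end Pool.Agent.T2h33.LC
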