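import Pool.Agent.T2h33.LC.Stm

set_option autoImplicit false

open MeasureTheory ProbabilityTheory Filter Topology Set
open scoped NNReal ENNReal unitInterval

namespace Pool.Agent.T2h33.LC

theorem prove_LW3 : S_LW3 := by
  intro N s hs hN
  have hf : Measurable fun x : D01 => (x.1 s, x.1 1) := (meas_eval s).prodMk (meas_eval 1)
  have hA : ∀ i ∈ Finset.range N, (ENNReal.ofReal (w i) • Measure.dirac (xA i)).map
      (fun x : D01 => (x.1 s, x.1 1)) = ENNReal.ofReal (w i) • Measure.dirac ((1 : ℝ), (1 : ℝ)) := by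
    intro i hi
    rw [Measure.map_smul, Measure.map_dirac' hf]
    have h1 : (xA i).1 s = 1 := by
      rw [xA_lt i hs, hN]
      unfold bA
      rw [if_neg (by have := Finset.mem_range.1 hi; omega)]
    rw [h1, xA_one]
  have hB : ∀ (c : ℝ≥0∞) (e : ℕ) (z : ℝ), (c • Measure.dirac (xN N e z)).map
      (fun x : D01 => (x.1 s, x.1 1)) = c • Measure.dirac (pos e N, z) := by
    intro c e z
    rw [Measure.map_smul, Measure.map_dirac' hf, xN_lt N e z hs, xN_one, hN]
    unfold bN
    rw [min_self]
  unfold PN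
  rw [Measure.map_add _ _ hf, Measure.map_add _ _ hf, Measure.map_add _ _ hf, Measure.map_add _ _ hf,
    hB, hB, hB, hB, pos_self, pos_succ_self,
    Measure.map_finset_sum hf.aemeasurable, Finset.sum_congr rfl hA, ← Finset.sum_smul,
    ← ENNReal.ofReal_sum_of_nonneg (fun i _ => (w_pos i).le), sum_w]
  unfold cp2
  have e1 : 1 - m N - m (N + 1) = 1 - m (N + 1) - m N := by ring
  rw [e1, add_comm]

end Pool.Agent.T2h33.LC
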