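import Pool.Agent.T2h33.LC.MKN

/-! Task MKL: the limits are Markovian. -/

set_option autoImplicit false

open MeasureTheory ProbabilityTheory Filter Topology Set
open scoped NNReal ENNReal unitInterval

namespace Pool.Agent.T2h33.LC

theorem xS_form (e : ℕ) (z : ℝ) {s : I} (hs : (s : ℝ) < 1) :
    ∀ r ≤ s, (xS e z).1 r = pos e (idx r) := by
  intro r hr
  rw [xS_lt e z (ne_one_of_lt hs hr)]

theorem xS_stay (e : ℕ) (z : ℝ) (s u : I) (hsu : s ≤ u) (h : (xS e z).1 s = 1) :
    (xS e z).1 u = 1 := by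
  rcases lt_or_eq_one s with hs | hs
  · rw [xS_form e z hs s le_rfl] at h
    exact absurd h (pos_ne_one _ _)
  · have hu : u = s := le_antisymm (by rw [hs]; exact u.2.2) hsu
    rw [hu]
    exact h

theorem prove_MKL (h1 : S_PRB) (h2 : S_MKV) : S_MKL := by
  intro r
  obtain ⟨C, hC⟩ : ∃ C : Set D01, C = range xA ∪ {xS (r + 1) 0, xS r (-1), xS r 1} := ⟨_, rfl⟩
  have hCc : C.Countable := by
    rw [hC]
    exact (countable_range _).union (Set.Finite.countable (by simp))
  have hform : ∀ x ∈ C, ∀ s : I, (s : ℝ) < 1 → x.1 s ≠ 1 →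
      ∃ e : ℕ, ∀ r ≤ s, x.1 r = pos e (idx r) := by
    intro x hx s hs hx1
    rw [hC] at hx
    rcases hx with ⟨i, rfl⟩ | hx
    · exact ⟨i, (xA_form hs hx1).2⟩
    · simp only [mem_insert_iff, mem_singleton_iff] at hx
      rcases hx with rfl | rfl | rfl
      · exact ⟨_, xS_form _ _ hs⟩
      · exact ⟨_, xS_form _ _ hs⟩
      · exact ⟨_, xS_form _ _ hs⟩
  refine h2 (PL r) C (h1.2 r) hCc ?_ ?_ ?_
  · have hd : ∀ x ∈ C, Measure.dirac x Cᶜ = 0 := by
      intro x hx
      rw [Measure.dirac_apply]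
      exact indicator_of_notMem (by simpa using hx) _
    have hA : ∀ i, Measure.dirac (xA i) Cᶜ = 0 := by
      intro i
      apply hd
      rw [hC]
      left
      exact ⟨i, rfl⟩
    have h3 : Measure.dirac (xS (r + 1) 0) Cᶜ = 0 := hd _ (by rw [hC]; right; simp)
    have h5 : Measure.dirac (xS r (-1)) Cᶜ = 0 := hd _ (by rw [hC]; right; simp)
    have h6 : Measure.dirac (xS r 1) Cᶜ = 0 := hd _ (by rw [hC]; right; simp)
    unfold PL
    rw [Measure.add_apply, Measure.sum_apply _ hCc.measurableSet.compl]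
    simp only [Measure.coe_add, Measure.coe_smul, Pi.add_apply, Pi.smul_apply, smul_eq_mul, h3, h5,
      h6, hA, mul_zero, add_zero, tsum_zero]
  · intro x hx s u hsu hx1
    rw [hC] at hx
    rcases hx with ⟨i, rfl⟩ | hx
    · exact xA_stay i s u hsu hx1
    · simp only [mem_insert_iff, mem_singleton_iff] at hx
      rcases hx with rfl | rfl | rfl <;> exact xS_stay _ _ s u hsu hx1
  · intro x hx y hy s hs hxy hx1 r' hr
    obtain ⟨e, he⟩ := hform x hx s hs hx1
    obtain ⟨e', he'⟩ := hform y hy s hs (by rw [← hxy]; exact hx1)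
    rw [he s le_rfl, he' s le_rfl, pos_eq_iff] at hxy
    rw [he r' hr, he' r' hr]
    exact pos_congr hxy _

end Pool.Agent.T2h33.LC
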