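import Pool.Agent.T2h33.LC.Stm

/-! Task MKN: the laws `PN N` are Markovian. -/

set_option autoImplicit false

open MeasureTheory ProbabilityTheory Filter Topology Set
open scoped NNReal ENNReal unitInterval

namespace Pool.Agent.T2h33.LC

theorem ne_one_of_lt {s : I} (hs : (s : ℝ) < 1) {u : I} (h : u ≤ s) : (u : ℝ) < 1 :=
  lt_of_le_of_lt (show (u : ℝ) ≤ s from h) hs

theorem lt_or_eq_one (s : I) : (s : ℝ) < 1 ∨ s = 1 := by
  rcases lt_or_eq_of_le (show (s : ℝ) ≤ 1 from s.2.2) with h | h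
  · left; exact h
  · right; exact Subtype.ext h

theorem xA_stay (i : ℕ) (s u : I) (hsu : s ≤ u) (h : (xA i).1 s = 1) : (xA i).1 u = 1 := by
  rcases lt_or_eq_one u with hu | hu
  · have hs := ne_one_of_lt hu hsu
    rw [xA_lt i hs] at h
    rw [xA_lt i hu]
    have h1 : ¬ idx s ≤ i := by
      intro h2
      unfold bA at h
      rw [if_pos h2] at h
      exact pos_ne_one _ _ h
    have h2 := idx_mono hsu hu
    unfold bA
    rw [if_neg (by omega)]
  · rw [hu]
    exact xA_one i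

theorem xA_form {i : ℕ} {s : I} (hs : (s : ℝ) < 1) (h : (xA i).1 s ≠ 1) :
    idx s ≤ i ∧ ∀ r ≤ s, (xA i).1 r = pos i (idx r) := by
  rw [xA_lt i hs] at h
  have h1 : idx s ≤ i := by
    by_contra h2
    unfold bA at h
    rw [if_neg h2] at h
    exact h rfl
  refine ⟨h1, fun r hr => ?_⟩
  rw [xA_lt i (ne_one_of_lt hs hr)]
  have h2 := idx_mono hr hs
  unfold bA
  rw [if_pos (by omega)]

theorem xN_form (N e : ℕ) (z : ℝ) {s : I} (hs : (s : ℝ) < 1) :
    ∀ r ≤ s, (xN N e z).1 r = pos e (min (idx r) N) := by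
  intro r hr
  rw [xN_lt N e z (ne_one_of_lt hs hr)]
  rfl

theorem xN_stay (N e : ℕ) (z : ℝ) (s u : I) (hsu : s ≤ u) (h : (xN N e z).1 s = 1) :
    (xN N e z).1 u = 1 := by
  rcases lt_or_eq_one s with hs | hs
  · rw [xN_form N e z hs s le_rfl] at h
    exact absurd h (pos_ne_one _ _)
  · have hu : u = s := le_antisymm (by rw [hs]; exact u.2.2) hsu
    rw [hu]
    exact h

theorem prove_MKN (h1 : S_PRB) (h2 : S_MKV) : S_MKN := by
  intro N
  obtain ⟨C, hC⟩ : ∃ C : Set D01, C = xA '' (Set.Iio N) ∪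
    {xN N (N + 1) 0, xN N (N + 1) 1, xN N N (-1), xN N N 1} := ⟨_, rfl⟩
  have hCc : C.Countable := by
    rw [hC]
    exact ((Set.finite_Iio N).image _ |>.union (by simp)).countable
  have hform : ∀ x ∈ C, ∀ s : I, (s : ℝ) < 1 → x.1 s ≠ 1 →
      ∃ e : ℕ, ∀ r ≤ s, x.1 r = pos e (min (idx r) N) := by
    intro x hx s hs hx1
    rw [hC] at hx
    rcases hx with ⟨i, hi, rfl⟩ | hx
    · refine ⟨i, fun r hr => ?_⟩
      obtain ⟨h3, h4⟩ := xA_form hs hx1
      rw [h4 r hr]
      have h5 := idx_mono hr hs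
      have h6 : i < N := hi
      rw [min_eq_left (by omega)]
    · simp only [mem_insert_iff, mem_singleton_iff] at hx
      rcases hx with rfl | rfl | rfl | rfl
      · exact ⟨_, xN_form _ _ _ hs⟩
      · exact ⟨_, xN_form _ _ _ hs⟩
      · exact ⟨_, xN_form _ _ _ hs⟩
      · exact ⟨_, xN_form _ _ _ hs⟩
  refine h2 (PN N) C (h1.1 N) hCc ?_ ?_ ?_
  · have hd : ∀ x ∈ C, Measure.dirac x Cᶜ = 0 := by
      intro x hx
      rw [Measure.dirac_apply]
      exact indicator_of_notMem (by simpa using hx) _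
    have hA : ∀ i ∈ Finset.range N, ENNReal.ofReal (w i) * Measure.dirac (xA i) Cᶜ = 0 := by
      intro i hi
      rw [hd, mul_zero]
      rw [hC]
      left
      exact ⟨i, Finset.mem_range.1 hi, rfl⟩
    have h3 : Measure.dirac (xN N (N + 1) 0) Cᶜ = 0 := hd _ (by rw [hC]; right; simp)
    have h4 : Measure.dirac (xN N (N + 1) 1) Cᶜ = 0 := hd _ (by rw [hC]; right; simp)
    have h5 : Measure.dirac (xN N N (-1)) Cᶜ = 0 := hd _ (by rw [hC]; right; simp)
    have h6 : Measure.dirac (xN N N 1) Cᶜ = 0 := hd _ (by rw [hC]; right; simp)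
    unfold PN
    simp only [Measure.coe_add, Measure.coe_finsetSum, Measure.coe_smul, Pi.add_apply,
      Finset.sum_apply, Pi.smul_apply, smul_eq_mul, h3, h4, h5, h6, mul_zero, add_zero]
    exact Finset.sum_eq_zero hA
  · intro x hx s u hsu hx1
    rw [hC] at hx
    rcases hx with ⟨i, hi, rfl⟩ | hx
    · exact xA_stay i s u hsu hx1
    · simp only [mem_insert_iff, mem_singleton_iff] at hx
      rcases hx with rfl | rfl | rfl | rfl <;> exact xN_stay _ _ _ s u hsu hx1
  · intro x hx y hy s hs hxy hx1 r hr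
    obtain ⟨e, he⟩ := hform x hx s hs hx1
    obtain ⟨e', he'⟩ := hform y hy s hs (by rw [← hxy]; exact hx1)
    rw [he s le_rfl, he' s le_rfl, pos_eq_iff] at hxy
    rw [he r hr, he' r hr]
    exact pos_congr hxy _

end Pool.Agent.T2h33.LC
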