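import Pool.Agent.T2h33.LC.Stm

/-! Task MKV: a Markov criterion for laws on countably many paths. -/

set_option autoImplicit false

open MeasureTheory ProbabilityTheory Filter Topology Set
open scoped NNReal ENNReal unitInterval

namespace Pool.Agent.T2h33.LC

/-- a set of the past contains with a path all the paths with the same past -/
theorem past_sat {s : I} {E : Set D01} (hE : MeasurableSet[past s] E) {x y : D01} (hx : x ∈ E)
    (h : ∀ r ≤ s, x.1 r = y.1 r) : y ∈ E := by
  obtain ⟨ρ, hρ⟩ : ∃ ρ : D01 → (Iic s → ℝ), ρ = fun x r => x.1 r.1 := ⟨_, rfl⟩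
  have h1 : past s ≤ MeasurableSpace.comap ρ ⊤ := by
    refine iSup₂_le fun r hr => ?_
    rintro _ ⟨B, -, rfl⟩
    refine ⟨(fun z => z ⟨r, hr⟩) ⁻¹' B, trivial, ?_⟩
    rw [hρ]
    rfl
  obtain ⟨E₀, -, rfl⟩ := h1 E hE
  have h2 : ρ x = ρ y := by
    rw [hρ]
    funext r
    exact h r.1 r.2
  rw [mem_preimage, ← h2]
  exact hx

theorem prove_MKV : S_MKV := by
  intro P C hP hC hPC h1 h2 s u hsu B hB
  have hCae : ∀ᵐ x ∂P, x ∈ C := hPC
  obtain ⟨A, hAdef⟩ : ∃ A : Set D01, A = {x : D01 | x.1 u ∈ B} := ⟨_, rfl⟩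
  rw [← hAdef]
  have hA : MeasurableSet A := by
    rw [hAdef]
    exact meas_eval u hB
  obtain ⟨f, hfdef⟩ : ∃ f : D01 → ℝ, f = indicator A (fun _ => (1 : ℝ)) := ⟨_, rfl⟩
  rw [← hfdef]
  have hf : Integrable f P := by
    rw [hfdef]
    exact (integrable_const 1).indicator hA
  rcases eq_or_lt_of_le (show (s : ℝ) ≤ 1 from s.2.2) with hs | hs
  · have hs1 : s = 1 := Subtype.ext hs
    have hu1 : u = s := le_antisymm (by rw [hs1]; exact u.2.2) hsu
    have h3 : MeasurableSet[present s] A := by
      rw [hAdef, hu1]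
      exact ⟨B, hB, rfl⟩
    have h4 : StronglyMeasurable[present s] f := by
      rw [hfdef]
      exact (stronglyMeasurable_const).indicator h3
    have h5 : StronglyMeasurable[past s] f := h4.mono (present_le_past s)
    rw [condExp_of_stronglyMeasurable (past_le s) h5 hf,
      condExp_of_stronglyMeasurable (present_le s) h4 hf]
  · obtain ⟨g, hg⟩ : ∃ g : D01 → ℝ, g = P[f | present s] := ⟨_, rfl⟩
    rw [← hg]
    have hgm : StronglyMeasurable[present s] g := by
      rw [hg]
      exact stronglyMeasurable_condExp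
    have hgi : Integrable g P := by
      rw [hg]
      exact integrable_condExp
    -- the particles which are at `1`
    obtain ⟨Z, hZ⟩ : ∃ Z : Set D01, Z = {x : D01 | x.1 s = 1} := ⟨_, rfl⟩
    have hZm : MeasurableSet[present s] Z := by
      rw [hZ]
      exact ⟨{1}, measurableSet_singleton _, rfl⟩
    obtain ⟨c, hc⟩ : ∃ c : ℝ, c = indicator B (fun _ => (1 : ℝ)) 1 := ⟨_, rfl⟩
    have h3 : Z.indicator f =ᵐ[P] Z.indicator fun _ => c := by
      filter_upwards [hCae] with x hx
      by_cases hxZ : x ∈ Z
      · rw [indicator_of_mem hxZ, indicator_of_mem hxZ, hfdef, hc]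
        have h4 : x.1 u = 1 := h1 x hx s u hsu (by rw [hZ] at hxZ; exact hxZ)
        by_cases hB1 : (1 : ℝ) ∈ B
        · rw [indicator_of_mem hB1, indicator_of_mem]
          rw [hAdef]
          show x.1 u ∈ B
          rw [h4]
          exact hB1
        · rw [indicator_of_notMem hB1, indicator_of_notMem]
          rw [hAdef]
          show ¬ x.1 u ∈ B
          rw [h4]
          exact hB1
      · rw [indicator_of_notMem hxZ, indicator_of_notMem hxZ]
    have h4 : Z.indicator g =ᵐ[P] Z.indicator fun _ => c := by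
      have h5 := condExp_indicator hf hZm
      have h6 : P[Z.indicator f | present s] =ᵐ[P] P[Z.indicator (fun _ => c) | present s] :=
        condExp_congr_ae h3
      have h7 : P[Z.indicator (fun _ => c) | present s] = Z.indicator fun _ => c :=
        condExp_of_stronglyMeasurable (present_le s) ((stronglyMeasurable_const).indicator hZm)
          ((integrable_const c).indicator (present_le s _ hZm))
      rw [h7] at h6
      rw [hg]
      exact h5.symm.trans h6
    have h5 : ∀ᵐ x ∂P, x ∈ Z → g x = f x := by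
      filter_upwards [h3, h4] with x hx3 hx4 hxZ
      rw [indicator_of_mem hxZ, indicator_of_mem hxZ] at hx3 hx4
      rw [hx3, hx4]
    refine (ae_eq_condExp_of_forall_setIntegral_eq (past_le s) hf (fun E _ _ => hgi.integrableOn) ?_
      (hgm.mono (present_le_past s)).aestronglyMeasurable).symm
    intro E hE _
    have hEm : MeasurableSet E := past_le s E hE
    have hZm' : MeasurableSet Z := present_le s Z hZm
    -- the set of the present
    obtain ⟨V, hV⟩ : ∃ V : Set ℝ, V = (fun x : D01 => x.1 s) '' (C ∩ (E \ Z)) := ⟨_, rfl⟩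
    have hVc : V.Countable := by
      rw [hV]
      exact (hC.mono inter_subset_left).image _
    obtain ⟨E', hE'⟩ : ∃ E' : Set D01, E' = (fun x : D01 => x.1 s) ⁻¹' V := ⟨_, rfl⟩
    have hE'm : MeasurableSet[present s] E' := by
      rw [hE']
      exact ⟨V, hVc.measurableSet, rfl⟩
    have h6 : (E \ Z : Set D01) =ᵐ[P] E' := by
      rw [eventuallyEq_set]
      filter_upwards [hCae] with y hy
      constructor
      · intro hyE
        rw [hE', mem_preimage, hV]
        exact ⟨y, ⟨hy, hyE⟩, rfl⟩
      · intro hyE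
        rw [hE', mem_preimage, hV] at hyE
        obtain ⟨x, ⟨hxC, hxE, hxZ⟩, hxy⟩ := hyE
        have hxy' : x.1 s = y.1 s := hxy
        have hx1 : x.1 s ≠ 1 := by
          rw [hZ] at hxZ
          exact hxZ
        refine ⟨past_sat hE hxE (h2 x hxC y hy s hs hxy' hx1), ?_⟩
        rw [hZ]
        show ¬ y.1 s = 1
        rw [← hxy']
        exact hx1
    have h7 : ∫ x in E \ Z, g x ∂P = ∫ x in E \ Z, f x ∂P := by
      rw [setIntegral_congr_set h6, setIntegral_congr_set h6, hg]
      exact setIntegral_condExp (present_le s) hf hE'm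
    have h8 : ∫ x in E ∩ Z, g x ∂P = ∫ x in E ∩ Z, f x ∂P := by
      refine setIntegral_congr_ae (hEm.inter hZm') ?_
      filter_upwards [h5] with x hx hxE
      exact hx hxE.2
    rw [← integral_inter_add_sdiff hZm' hgi.integrableOn, ← integral_inter_add_sdiff hZm'
      hf.integrableOn, h7, h8]

end Pool.Agent.T2h33.LC
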