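import Pool.Agent.T2h33.LC.Stm

set_option autoImplicit false

open MeasureTheory ProbabilityTheory Filter Topology Set
open scoped NNReal ENNReal unitInterval

namespace Pool.Agent.T2h33.LC

theorem prove_MSH : S_MSH := by
  intro r ε hε
  have h : Tendsto (fun n : ℕ => (1 / 2 : ℝ) ^ n) atTop (𝓝 0) :=
    tendsto_pow_atTop_nhds_zero_of_lt_one (by norm_num) (by norm_num)
  filter_upwards [h.eventually (gt_mem_nhds hε)] with n hn k
  have e : (((grid (2 * n + r)).t k.succ : I) : ℝ) - ((grid (2 * n + r)).t k.castSucc : I) =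
      (1 / 2 : ℝ) ^ (2 * n + r) := by
    show (((k.succ : Fin (2 ^ (2 * n + r) + 1)) : ℕ) : ℝ) / 2 ^ (2 * n + r) -
      (((k.castSucc : Fin (2 ^ (2 * n + r) + 1)) : ℕ) : ℝ) / 2 ^ (2 * n + r) = _
    rw [Fin.val_succ, Fin.val_castSucc, ← sub_div]
    push_cast
    rw [one_div_pow]
    ring_nf
  rw [e]
  refine lt_of_le_of_lt ?_ hn
  exact pow_le_pow_of_le_one (by norm_num) (by norm_num) (by omega)

end Pool.Agent.T2h33.LC
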