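import Pool.Agent.T2h33.LC.Stm

set_option autoImplicit false

open MeasureTheory ProbabilityTheory Filter Topology Set
open scoped NNReal ENNReal unitInterval

namespace Pool.Agent.T2h33.LC

theorem prove_NEQ : S_NEQ := by
  intro h
  set E : Set D01 := {x : D01 | x.1 0 = a 0 ∧ x.1 1 = 0} with hE
  have hEm : MeasurableSet E :=
    (meas_eval 0 (measurableSet_singleton (a 0))).inter (meas_eval 1 (measurableSet_singleton (0 : ℝ)))
  have h0 : ((0 : I) : ℝ) < 1 := by simp
  have hA : ∀ i, xA i ∉ E := by
    intro i hi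
    have := hi.2
    rw [xA_one] at this
    norm_num at this
  have hz : ∀ e z, z ≠ 0 → xS e z ∉ E := by
    intro e z hz hi
    exact hz (by rw [← xS_one e z]; exact hi.2)
  have h1 : xS (0 + 1) 0 ∉ E := by
    intro hi
    have := hi.1
    rw [xS_lt _ _ h0, idx_zero] at this
    unfold pos at this
    rw [if_neg (by norm_num)] at this
    exact absurd (a_inj this) (by norm_num)
  have h2 : xS (1 + 1) 0 ∈ E := by
    refine ⟨?_, xS_one _ _⟩
    rw [xS_lt _ _ h0, idx_zero]
    unfold pos
    rw [if_pos (by norm_num)]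
  have e0 : PL 0 E = 0 := by
    unfold PL
    simp only [Measure.coe_add, Measure.coe_smul, Pi.add_apply, Pi.smul_apply, smul_eq_mul,
      Measure.sum_apply _ hEm, Measure.dirac_apply' _ hEm]
    rw [indicator_of_notMem h1, indicator_of_notMem (hz 0 (-1) (by norm_num)),
      indicator_of_notMem (hz 0 1 (by norm_num))]
    simp [indicator_of_notMem (hA _)]
  have e1 : PL 1 E ≠ 0 := by
    unfold PL
    simp only [Measure.coe_add, Measure.coe_smul, Pi.add_apply, Pi.smul_apply, smul_eq_mul,
      Measure.sum_apply _ hEm, Measure.dirac_apply' _ hEm]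
    rw [indicator_of_mem h2, indicator_of_notMem (hz 1 (-1) (by norm_num)),
      indicator_of_notMem (hz 1 1 (by norm_num))]
    simp [indicator_of_notMem (hA _)]
  rw [h] at e0
  exact e1 e0

end Pool.Agent.T2h33.LC
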