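import Pool.Agent.T2h33.LC.Stm

set_option autoImplicit false

open MeasureTheory ProbabilityTheory Filter Topology Set
open scoped NNReal ENNReal unitInterval

namespace Pool.Agent.T2h33.LC

theorem CvxLE.trans_of_int {α β γ : Measure ℝ} (h1 : CvxLE α β) (h2 : CvxLE β γ)
    (hβ : ∀ f : ℝ → ℝ, Integrable f β) : CvxLE α γ :=
  ⟨h1.1.trans h2.1, fun f hf hα hγ => (h1.2 f hf hα (hβ f)).trans (h2.2 f hf (hβ f) hγ)⟩

theorem w_last_nonneg (k : ℕ) : 0 ≤ 1 - m (k + 1) - m k := by linarith [m_add_le k]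

theorem cvxLE_S_succ (k : ℕ) : CvxLE (S k) (S (k + 1)) := by
  rw [S_eq, S_eq]
  refine cvxLE_at3 (m_pos _).le (m_pos _).le (w_last_nonneg k) (m_pos _).le (m_pos _).le
    (w_last_nonneg (k + 1)) (by ring) (fun f hf => ?_)
  have h := two_point hf (p := m k) (q := m (k + 2)) (r := m k - m (k + 2)) (z := a k)
    (z₁ := a (k + 2)) (z₂ := 1) (m_pos _).le (by linarith [m_anti (show k < k + 2 by omega)])
    (by ring) (by rw [m_mul_a, m_mul_a]; ring)
  show m (k + 1) * f (a (k + 1)) + m k * f (a k) + (1 - m (k + 1) - m k) * f 1 ≤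
    m (k + 2) * f (a (k + 2)) + m (k + 1) * f (a (k + 1)) + (1 - m (k + 2) - m (k + 1)) * f 1
  linarith

theorem cvxLE_S_Fm (k : ℕ) : CvxLE (S k) Fm := by
  rw [S_eq, Fm_eq]
  have hk := m_gt k
  have hk1 := m_gt (k + 1)
  refine cvxLE_at3 (m_pos _).le (m_pos _).le (w_last_nonneg k) (by norm_num) (by norm_num)
    (by norm_num) (by ring) (fun f hf => ?_)
  have h := two_point hf (p := m (k + 1)) (q := 3 / 10) (r := m (k + 1) - 3 / 10) (z := a (k + 1))
    (z₁ := 0) (z₂ := 1) (by norm_num) (by linarith) (by ring) (by rw [m_mul_a]; ring)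
  have h' := two_point hf (p := m k) (q := 3 / 20) (r := m k - 3 / 20) (z := a k)
    (z₁ := -1) (z₂ := 1) (by norm_num) (by linarith) (by ring) (by rw [m_mul_a]; ring)
  linarith

theorem cvxLE_S_mono {j k : ℕ} (h : j ≤ k) : CvxLE (S j) (S k) := by
  induction k, h using Nat.le_induction with
  | base => exact CvxLE.rfl' _
  | succ k _ ih => exact ih.trans_of_int (cvxLE_S_succ k) (fun f => by rw [S_eq]; exact at3_int f)

theorem S_prob (k : ℕ) : IsProbabilityMeasure (S k) := by
  constructor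
  rw [S_eq, at3_univ (m_pos _).le (m_pos _).le (w_last_nonneg k),
    show m (k + 1) + m k + (1 - m (k + 1) - m k) = 1 by ring, ENNReal.ofReal_one]

theorem Fm_prob : IsProbabilityMeasure Fm := by
  constructor
  rw [Fm_eq, at3_univ (by norm_num) (by norm_num) (by norm_num),
    show (3 / 20 + 3 / 10 + 11 / 20 : ℝ) = 1 by norm_num, ENNReal.ofReal_one]

theorem prove_PEA : S_PEA := by
  constructor
  · intro t
    unfold mu
    split_ifs with h
    · exact ⟨S_prob _, by rw [S_eq]; exact at3_int _⟩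
    · exact ⟨Fm_prob, by rw [Fm_eq]; exact at3_int _⟩
  · intro s t hst
    unfold mu
    by_cases ht : (t : ℝ) < 1
    · have hs : (s : ℝ) < 1 := lt_of_le_of_lt hst ht
      rw [if_pos hs, if_pos ht]
      exact cvxLE_S_mono (idx_mono hst ht)
    · rw [if_neg ht]
      split_ifs with hs
      · exact cvxLE_S_Fm _
      · exact CvxLE.rfl' _

end Pool.Agent.T2h33.LC
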