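import Pool.Agent.T2h33.LC.Stm

/-! Task PRB: the laws are probability measures. -/

set_option autoImplicit false

open MeasureTheory ProbabilityTheory Filter Topology Set
open scoped NNReal ENNReal unitInterval

namespace Pool.Agent.T2h33.LC

theorem prove_PRB : S_PRB := by
  constructor
  · intro N
    constructor
    unfold PN
    simp only [Measure.coe_add, Measure.coe_finsetSum, Measure.coe_smul, Pi.add_apply,
      Finset.sum_apply, Pi.smul_apply, smul_eq_mul, measure_univ, mul_one]
    rw [← ENNReal.ofReal_sum_of_nonneg (fun i _ => (w_pos i).le), sum_w]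
    have h1 := m_gt (N + 1)
    have h2 := m_gt N
    have h3 := m_add_le N
    rw [← ENNReal.ofReal_add (by norm_num) (by linarith), ← ENNReal.ofReal_add (by linarith)
      (by norm_num), ← ENNReal.ofReal_add (by linarith) (by linarith),
      ← ENNReal.ofReal_add (by linarith) (by linarith), ← ENNReal.ofReal_one]
    congr 1
    ring
  · intro r
    constructor
    unfold PL
    rw [Measure.add_apply, Measure.sum_apply _ MeasurableSet.univ]
    simp only [Measure.coe_add, Measure.coe_smul, Pi.add_apply, Pi.smul_apply, smul_eq_mul,
      measure_univ, mul_one]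
    rw [← ENNReal.ofReal_tsum_of_nonneg (fun i => (w_pos i).le) hasSum_w.summable,
      hasSum_w.tsum_eq, ← ENNReal.ofReal_add (by norm_num) (by norm_num),
      ← ENNReal.ofReal_add (by norm_num) (by norm_num),
      ← ENNReal.ofReal_add (by norm_num) (by norm_num), ← ENNReal.ofReal_one]
    congr 1
    norm_num

end Pool.Agent.T2h33.LC
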