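import Pool.Agent.T2h33.LC.Stm

set_option autoImplicit false

open MeasureTheory ProbabilityTheory Filter Topology Set
open scoped NNReal ENNReal unitInterval

namespace Pool.Agent.T2h33.LC

theorem kant_self (α : Measure ℝ) : kant α α = 0 := by
  have hd : Measurable fun y : ℝ => (y, y) := measurable_id.prodMk measurable_id
  have h1 : (α.map fun y => (y, y)).map Prod.fst = α := by
    rw [Measure.map_map measurable_fst hd]
    exact Measure.map_id
  have h2 : (α.map fun y => (y, y)).map Prod.snd = α := by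
    rw [Measure.map_map measurable_snd hd]
    exact Measure.map_id
  refine le_antisymm ?_ bot_le
  unfold kant
  refine (iInf₂_le (α.map fun y => (y, y)) ⟨h1, h2⟩).trans ?_
  rw [lintegral_map (by fun_prop) hd]
  simp

theorem prove_RCO : S_RCO := by
  intro t
  rcases lt_or_eq_of_le t.2.2 with ht | ht
  · obtain ⟨k, hk⟩ : ∃ k, idx t = k := ⟨_, rfl⟩
    have h1 := (idx_eq_iff ht k).1 hk
    have hev : (fun s => kant (mu s) (mu t)) =ᶠ[𝓝[≥] t] fun _ => 0 := by
      have : ∀ᶠ s : I in 𝓝 t, (s : ℝ) < 1 - (1 / 2 : ℝ) ^ (k + 1) :=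
        (continuous_subtype_val.tendsto t).eventually (gt_mem_nhds h1.2)
      filter_upwards [mem_nhdsWithin_of_mem_nhds this, self_mem_nhdsWithin] with s hs1 hs2
      have hs3 : (t : ℝ) ≤ s := hs2
      have hs4 : (s : ℝ) < 1 := by
        have : (0 : ℝ) < (1 / 2 : ℝ) ^ (k + 1) := by positivity
        have hs1' : (s : ℝ) < 1 - (1 / 2 : ℝ) ^ (k + 1) := hs1
        linarith
      have : mu s = mu t := by
        unfold mu
        rw [if_pos hs4, if_pos ht, hk, (idx_eq_iff hs4 k).2 ⟨h1.1.trans hs3, hs1⟩]
      rw [this, kant_self]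
    exact tendsto_const_nhds.congr' hev.symm
  · have h4 : t = 1 := Subtype.ext ht
    subst h4
    have : Ici (1 : I) = {1} := by
      ext x
      simp only [mem_Ici, mem_singleton_iff]
      exact ⟨fun h => le_antisymm x.2.2 h, fun h => h.ge⟩
    rw [this, nhdsWithin_singleton]
    rw [tendsto_pure_left]
    intro s hs
    rw [kant_self]
    exact mem_of_mem_nhds hs

end Pool.Agent.T2h33.LC
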