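import Pool.Agent.T2h33.LC.Stm

set_option autoImplicit false

open MeasureTheory ProbabilityTheory Filter Topology Set
open scoped NNReal ENNReal unitInterval

namespace Pool.Agent.T2h33.LC

theorem prove_SC0 : S_SC0 := by
  intro μ hμ hint
  have hd : Measurable fun y : ℝ => (y, y) := measurable_id.prodMk measurable_id
  have hr : ∀ B : Set ℝ, MeasurableSet B → (μ.map fun y => (y, y)).restrict (Prod.fst ⁻¹' B) =
      (μ.restrict B).map fun y => (y, y) := by
    intro B hB
    rw [Measure.restrict_map hd (measurable_fst hB)]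
    rfl
  have h1 : ∀ α : Measure ℝ, (α.map fun y => (y, y)).map Prod.fst = α := by
    intro α
    rw [Measure.map_map measurable_fst hd]
    exact Measure.map_id
  have h2 : ∀ α : Measure ℝ, (α.map fun y => (y, y)).map Prod.snd = α := by
    intro α
    rw [Measure.map_map measurable_snd hd]
    exact Measure.map_id
  refine ⟨⟨h1 μ, h2 μ, fun B hB => ?_⟩, fun x => ⟨?_, ?_⟩⟩
  · rw [hr B hB, integral_map hd.aemeasurable measurable_snd.aestronglyMeasurable,
      integral_map hd.aemeasurable measurable_fst.aestronglyMeasurable]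
  · rw [hr _ measurableSet_Iic, h1]
  · rw [hr _ measurableSet_Iic, h2]
    exact ⟨Measure.restrict_le_self, CvxLE.rfl' _, fun η' _ h => h⟩

end Pool.Agent.T2h33.LC
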