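import Pool.Agent.T2h33.LC.SHB

set_option autoImplicit false

open MeasureTheory ProbabilityTheory Filter Topology Set
open scoped NNReal ENNReal unitInterval

namespace Pool.Agent.T2h33.LC

namespace SCh

/-- an atom of mass `c` -/
noncomputable def pt {α : Type*} [MeasurableSpace α] (c : ℝ) (p : α) : Measure α :=
  ENNReal.ofReal c • Measure.dirac p

theorem pt_zero {α : Type*} [MeasurableSpace α] (p : α) : pt 0 p = 0 := by
  unfold pt
  rw [ENNReal.ofReal_zero, zero_smul]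

theorem pt_add {α : Type*} [MeasurableSpace α] {c d : ℝ} (hc : 0 ≤ c) (hd : 0 ≤ d) (p : α) :
    pt (c + d) p = pt c p + pt d p := by
  unfold pt
  rw [ENNReal.ofReal_add hc hd, add_smul]

theorem pt_restrict {α : Type*} [MeasurableSpace α] (c : ℝ) (p : α) {s : Set α}
    (hs : MeasurableSet s) [Decidable (p ∈ s)] :
    (pt c p).restrict s = if p ∈ s then pt c p else 0 := by
  unfold pt
  rw [Measure.restrict_smul, restrict_dirac' hs]
  split_ifs
  · rfl
  · rw [smul_zero]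

theorem pt_map {α β : Type*} [MeasurableSpace α] [MeasurableSpace β] (c : ℝ) (p : α) {f : α → β}
    (hf : Measurable f) : (pt c p).map f = pt c (f p) := by
  unfold pt
  rw [Measure.map_smul, Measure.map_dirac' hf]

theorem pt_integrable {α : Type*} [MeasurableSpace α] [MeasurableSingletonClass α] (f : α → ℝ)
    (c : ℝ) (p : α) : Integrable f (pt c p) := int_dirac f p c

theorem pt_integral {α : Type*} [MeasurableSpace α] [MeasurableSingletonClass α] (f : α → ℝ)
    (p : α) {c : ℝ} (hc : 0 ≤ c) : ∫ y, f y ∂(pt c p) = c * f p := integral_dirac_smul f p hc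

theorem at3_pt (u v w z₁ z₂ z₃ : ℝ) : at3 u v w z₁ z₂ z₃ = pt u z₁ + pt v z₂ + pt w z₃ := rfl

/-- five atoms in the plane -/
noncomputable def at5 (c₁ c₂ c₃ c₄ c₅ : ℝ) (p₁ p₂ p₃ p₄ p₅ : ℝ × ℝ) : Measure (ℝ × ℝ) :=
  pt c₁ p₁ + pt c₂ p₂ + pt c₃ p₃ + pt c₄ p₄ + pt c₅ p₅

theorem at5_integral {c₁ c₂ c₃ c₄ c₅ : ℝ} {p₁ p₂ p₃ p₄ p₅ : ℝ × ℝ} (h1 : 0 ≤ c₁) (h2 : 0 ≤ c₂)
    (h3 : 0 ≤ c₃) (h4 : 0 ≤ c₄) (h5 : 0 ≤ c₅) (f : ℝ × ℝ → ℝ) :
    ∫ p, f p ∂(at5 c₁ c₂ c₃ c₄ c₅ p₁ p₂ p₃ p₄ p₅) =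
      c₁ * f p₁ + c₂ * f p₂ + c₃ * f p₃ + c₄ * f p₄ + c₅ * f p₅ := by
  unfold at5
  have i1 := pt_integrable f c₁ p₁
  have i2 := pt_integrable f c₂ p₂
  have i3 := pt_integrable f c₃ p₃
  have i4 := pt_integrable f c₄ p₄
  have i5 := pt_integrable f c₅ p₅
  rw [integral_add_measure (((i1.add_measure i2).add_measure i3).add_measure i4) i5,
    integral_add_measure ((i1.add_measure i2).add_measure i3) i4,
    integral_add_measure (i1.add_measure i2) i3, integral_add_measure i1 i2,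
    pt_integral f p₁ h1, pt_integral f p₂ h2, pt_integral f p₃ h3, pt_integral f p₄ h4,
    pt_integral f p₅ h5]

/-- a criterion for the left-curtain coupling -/
theorem curt_of {μ ν : Measure ℝ} {c₁ c₂ c₃ c₄ c₅ : ℝ} {p₁ p₂ p₃ p₄ p₅ : ℝ × ℝ} (h1 : 0 ≤ c₁)
    (h2 : 0 ≤ c₂) (h3 : 0 ≤ c₃) (h4 : 0 ≤ c₄) (h5 : 0 ≤ c₅)
    (hμ : pt c₁ p₁.1 + pt c₂ p₂.1 + pt c₃ p₃.1 + pt c₄ p₄.1 + pt c₅ p₅.1 = μ)
    (hν : pt c₁ p₁.2 + pt c₂ p₂.2 + pt c₃ p₃.2 + pt c₄ p₄.2 + pt c₅ p₅.2 = ν)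
    (hM : ∀ f : ℝ → ℝ, c₁ * (f p₁.1 * p₁.2) + c₂ * (f p₂.1 * p₂.2) + c₃ * (f p₃.1 * p₃.2) +
      c₄ * (f p₄.1 * p₄.2) + c₅ * (f p₅.1 * p₅.2) =
      c₁ * (f p₁.1 * p₁.1) + c₂ * (f p₂.1 * p₂.1) + c₃ * (f p₃.1 * p₃.1) +
      c₄ * (f p₄.1 * p₄.1) + c₅ * (f p₅.1 * p₅.1))
    (hS : ∀ x : ℝ, IsShadow ν (μ.restrict (Iic x))
      ((if p₁.1 ≤ x then pt c₁ p₁.2 else 0) + (if p₂.1 ≤ x then pt c₂ p₂.2 else 0) +
      (if p₃.1 ≤ x then pt c₃ p₃.2 else 0) + (if p₄.1 ≤ x then pt c₄ p₄.2 else 0) +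
      (if p₅.1 ≤ x then pt c₅ p₅.2 else 0))) :
    IsCurt μ ν (at5 c₁ c₂ c₃ c₄ c₅ p₁ p₂ p₃ p₄ p₅) := by
  classical
  have hfst : (at5 c₁ c₂ c₃ c₄ c₅ p₁ p₂ p₃ p₄ p₅).map Prod.fst = μ := by
    unfold at5
    rw [← hμ]
    simp only [Measure.map_add _ _ measurable_fst, pt_map _ _ measurable_fst]
  have hsnd : (at5 c₁ c₂ c₃ c₄ c₅ p₁ p₂ p₃ p₄ p₅).map Prod.snd = ν := by
    unfold at5
    rw [← hν]
    simp only [Measure.map_add _ _ measurable_snd, pt_map _ _ measurable_snd]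
  refine ⟨⟨hfst, hsnd, fun B hB => ?_⟩, fun x => ⟨?_, ?_⟩⟩
  · have hB' : MeasurableSet (Prod.fst ⁻¹' B : Set (ℝ × ℝ)) := measurable_fst hB
    rw [← integral_indicator hB', ← integral_indicator hB', at5_integral h1 h2 h3 h4 h5,
      at5_integral h1 h2 h3 h4 h5]
    have e1 : ∀ (g : ℝ × ℝ → ℝ) (p : ℝ × ℝ), indicator (Prod.fst ⁻¹' B) g p =
        (if p.1 ∈ B then 1 else 0) * g p := by
      intro g p
      by_cases h : p.1 ∈ B
      · rw [indicator_of_mem (show p ∈ Prod.fst ⁻¹' B from h), if_pos h, one_mul]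
      · rw [indicator_of_notMem (show p ∉ Prod.fst ⁻¹' B from h), if_neg h, zero_mul]
    simp only [e1]
    exact hM fun y => if y ∈ B then 1 else 0
  · rw [← Measure.restrict_map measurable_fst measurableSet_Iic, hfst]
  · have hI : MeasurableSet (Prod.fst ⁻¹' Iic x : Set (ℝ × ℝ)) := measurable_fst measurableSet_Iic
    have e2 : ((at5 c₁ c₂ c₃ c₄ c₅ p₁ p₂ p₃ p₄ p₅).restrict (Prod.fst ⁻¹' Iic x)).map Prod.snd =
        (if p₁.1 ≤ x then pt c₁ p₁.2 else 0) + (if p₂.1 ≤ x then pt c₂ p₂.2 else 0) +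
        (if p₃.1 ≤ x then pt c₃ p₃.2 else 0) + (if p₄.1 ≤ x then pt c₄ p₄.2 else 0) +
        (if p₅.1 ≤ x then pt c₅ p₅.2 else 0) := by
      unfold at5
      simp only [Measure.restrict_add, pt_restrict _ _ hI, Measure.map_add _ _ measurable_snd]
      have e3 : ∀ (c : ℝ) (p : ℝ × ℝ), (if p ∈ (Prod.fst ⁻¹' Iic x : Set (ℝ × ℝ)) then pt c p
          else 0).map Prod.snd = if p.1 ≤ x then pt c p.2 else 0 := by
        intro c p
        by_cases h : p.1 ≤ x
        · rw [if_pos (show p ∈ (Prod.fst ⁻¹' Iic x : Set (ℝ × ℝ)) from h), if_pos h,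
            pt_map _ _ measurable_snd]
        · rw [if_neg (show ¬ p ∈ (Prod.fst ⁻¹' Iic x : Set (ℝ × ℝ)) from h), if_neg h,
            Measure.map_zero]
      simp only [e3]
    rw [e2]
    exact hS x

theorem at3_restrict (u v w z₁ z₂ z₃ x : ℝ) : (at3 u v w z₁ z₂ z₃).restrict (Iic x) =
    (if z₁ ≤ x then pt u z₁ else 0) + (if z₂ ≤ x then pt v z₂ else 0) +
      (if z₃ ≤ x then pt w z₃ else 0) := by
  classical
  rw [at3_pt]
  simp only [Measure.restrict_add, pt_restrict _ _ measurableSet_Iic, mem_Iic]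

theorem shadow_self {ν α : Measure ℝ} (h : α ≤ ν) : IsShadow ν α α :=
  ⟨h, CvxLE.rfl' _, fun _ _ h' => h'⟩

theorem shadow_zero (ν : Measure ℝ) : IsShadow ν 0 0 := shadow_self (Measure.zero_le ν)

end SCh

open SCh

theorem prove_SC1 (h1 : S_SHB) : S_SC1 := by
  intro k
  have a1 := a_lt k
  have a2 := a_lt (k + 1)
  have a3 : a k < 1 := by linarith [a_le_half k]
  have m1 := m_add_le k
  have m2 := m_add_le (k + 1)
  have m3 : m (k + 2) < m (k + 1) := m_anti (by omega)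
  have m4 : m (k + 1) < m k := m_anti (by omega)
  have mp0 := m_pos k
  have mp1 := m_pos (k + 1)
  have mp2 := m_pos (k + 2)
  have e0 := m_mul_a k
  have e1 := m_mul_a (k + 1)
  have e2 := m_mul_a (k + 2)
  have hcp : cp1 k = at5 (m (k + 1)) (m (k + 2)) (m k - m (k + 2)) (1 - m (k + 1) - m k) 0
      (a (k + 1), a (k + 1)) (a k, a (k + 2)) (a k, 1) (1, 1) (1, 1) := by
    unfold at5
    rw [pt_zero, add_zero]
    rfl
  rw [hcp]
  have hcv : ∀ f : ℝ → ℝ, ConvexOn ℝ univ f → m k * f (a k) ≤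
      m (k + 2) * f (a (k + 2)) + (m k - m (k + 2)) * f 1 := by
    intro f hf
    exact two_point hf mp2.le (by linarith) (by ring) (by linarith)
  refine curt_of mp1.le mp2.le (by linarith) (by linarith) le_rfl ?_ ?_ ?_ ?_
  · rw [S_eq, at3_pt]
    simp only [pt_zero, add_zero]
    have : pt (m k) (a k) = pt (m (k + 2)) (a k) + pt (m k - m (k + 2)) (a k) := by
      rw [← pt_add mp2.le (by linarith)]
      congr 1
      ring
    rw [this, ← add_assoc]
  · rw [S_eq, at3_pt]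
    simp only [pt_zero, add_zero]
    have : pt (1 - m (k + 1 + 1) - m (k + 1)) (1 : ℝ) =
        pt (m k - m (k + 2)) 1 + pt (1 - m (k + 1) - m k) 1 := by
      rw [← pt_add (by linarith) (by linarith)]
      congr 1
      ring
    rw [this, ← add_assoc]
    congr 2
    exact add_comm _ _
  · intro f
    simp only
    linear_combination (f (a k)) * (e2 - e0)
  · intro x
    rw [S_eq k, at3_restrict]
    simp only [pt_zero, ite_self, add_zero]
    rcases lt_or_ge x (a (k + 1)) with hx1 | hx1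
    · have c1 : ¬ a (k + 1) ≤ x := not_le.2 hx1
      have c2 : ¬ a k ≤ x := by push Not; linarith
      have c3 : ¬ (1 : ℝ) ≤ x := by push Not; linarith
      simp only [if_neg c1, if_neg c2, if_neg c3, add_zero]
      exact shadow_zero _
    · rcases lt_or_ge x (a k) with hx2 | hx2
      · have c2 : ¬ a k ≤ x := not_le.2 hx2
        have c3 : ¬ (1 : ℝ) ≤ x := by push Not; linarith
        simp only [if_pos hx1, if_neg c2, if_neg c3, add_zero]
        apply shadow_self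
        rw [S_eq, at3_pt]
        rw [Measure.le_iff]
        intro s _
        simp only [Measure.coe_add, Pi.add_apply]
        exact le_trans (self_le_add_left _ _) (self_le_add_right _ _)
      · have hsum : (if a (k + 1) ≤ x then pt (m (k + 1)) (a (k + 1)) else 0) +
            (if a k ≤ x then pt (m (k + 2)) (a (k + 2)) else 0) +
            (if a k ≤ x then pt (m k - m (k + 2)) (1 : ℝ) else 0) +
            (if (1 : ℝ) ≤ x then pt (1 - m (k + 1) - m k) (1 : ℝ) else 0) =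
            at3 (m (k + 2)) (m (k + 1)) (m k - m (k + 2) +
              (if (1 : ℝ) ≤ x then 1 - m (k + 1) - m k else 0)) (a (k + 2)) (a (k + 1)) 1 := by
          rw [if_pos hx1, if_pos hx2, if_pos hx2, at3_pt, pt_add (by linarith)
            (by split_ifs <;> linarith), ← add_assoc]
          congr 1
          · congr 1
            exact add_comm _ _
          · split_ifs
            · rfl
            · rw [pt_zero]
        have hα : (if a (k + 1) ≤ x then pt (m (k + 1)) (a (k + 1)) else 0) +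
            (if a k ≤ x then pt (m k) (a k) else 0) +
            (if (1 : ℝ) ≤ x then pt (1 - m (k + 1) - m k) (1 : ℝ) else 0) =
            at3 (m (k + 1)) (m k) (if (1 : ℝ) ≤ x then 1 - m (k + 1) - m k else 0)
              (a (k + 1)) (a k) 1 := by
          rw [if_pos hx1, if_pos hx2, at3_pt]
          congr 1
          split_ifs
          · rfl
          · rw [pt_zero]
        rw [hsum, hα, S_eq]
        have hc : 0 ≤ (if (1 : ℝ) ≤ x then 1 - m (k + 1) - m k else 0) := by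
          split_ifs <;> linarith
        have hc' : (if (1 : ℝ) ≤ x then 1 - m (k + 1) - m k else 0) ≤ 1 - m (k + 1) - m k := by
          split_ifs <;> linarith
        refine h1 _ _ _ _ _ _ _ mp2.le mp1.le (by linarith) ?_ a2 (by linarith) _ (at3_int _) ?_
        · have : m (k + 1 + 1) = m (k + 2) := rfl
          linarith
        · refine cvxLE_at3 mp1.le mp0.le hc mp2.le mp1.le (by linarith) (by ring) fun f hf => ?_
          have := hcv f hf
          linarith

end Pool.Agent.T2h33.LC
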