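import Pool.Agent.T2h33.LC.SC1

set_option autoImplicit false

open MeasureTheory ProbabilityTheory Filter Topology Set
open scoped NNReal ENNReal unitInterval

namespace Pool.Agent.T2h33.LC

open SCh

theorem prove_SC2 (h1 : S_SHB) (h2 : S_SHC) : S_SC2 := by
  intro N
  have a1 := a_lt N
  have a3 : a N < 1 := by linarith [a_le_half N]
  have m1 := m_add_le N
  have m4 : m (N + 1) < m N := m_anti (by omega)
  have mg0 := m_gt N
  have mg1 := m_gt (N + 1)
  have mp0 := m_pos N
  have mp1 := m_pos (N + 1)
  have e0 := m_mul_a N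
  have e1 := m_mul_a (N + 1)
  have hcp : cp2 N = at5 (3 / 10) (m (N + 1) - 3 / 10) (3 / 20) (m N - 3 / 20)
      (1 - m (N + 1) - m N) (a (N + 1), 0) (a (N + 1), 1) (a N, -1) (a N, 1) (1, 1) := rfl
  rw [hcp]
  have hcv0 : ∀ f : ℝ → ℝ, ConvexOn ℝ univ f → m N * f (a N) ≤
      3 / 20 * f (-1) + (m N - 3 / 20) * f 1 := by
    intro f hf
    exact two_point hf (by norm_num) (by linarith) (by ring) (by linarith)
  have hcv1 : ∀ f : ℝ → ℝ, ConvexOn ℝ univ f → m (N + 1) * f (a (N + 1)) ≤
      3 / 10 * f 0 + (m (N + 1) - 3 / 10) * f 1 := by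
    intro f hf
    exact two_point hf (by norm_num) (by linarith) (by ring) (by linarith)
  refine curt_of (by norm_num) (by linarith) (by norm_num) (by linarith) (by linarith) ?_ ?_ ?_ ?_
  · rw [S_eq, at3_pt]
    simp only
    have q1 : pt (m (N + 1)) (a (N + 1)) = pt (3 / 10) (a (N + 1)) +
        pt (m (N + 1) - 3 / 10) (a (N + 1)) := by
      rw [← pt_add (by norm_num) (by linarith)]
      congr 1
      ring
    have q2 : pt (m N) (a N) = pt (3 / 20) (a N) + pt (m N - 3 / 20) (a N) := by
      rw [← pt_add (by norm_num) (by linarith)]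
      congr 1
      ring
    rw [q1, q2, ← add_assoc]
  · rw [Fm_eq, at3_pt]
    simp only
    have q1 : pt (11 / 20) (1 : ℝ) = pt (m (N + 1) - 3 / 10) 1 + pt (m N - 3 / 20) 1 +
        pt (1 - m (N + 1) - m N) 1 := by
      rw [← pt_add (by linarith) (by linarith), ← pt_add (by linarith) (by linarith)]
      congr 1
      ring
    rw [q1]
    abel
  · intro f
    simp only
    linear_combination (-f (a (N + 1))) * e1 - (f (a N)) * e0
  · intro x
    rw [S_eq N, at3_restrict, Fm_eq]
    simp only
    rcases lt_or_ge x (a (N + 1)) with hx1 | hx1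
    · have c1 : ¬ a (N + 1) ≤ x := not_le.2 hx1
      have c2 : ¬ a N ≤ x := by push Not; linarith
      have c3 : ¬ (1 : ℝ) ≤ x := by push Not; linarith
      simp only [if_neg c1, if_neg c2, if_neg c3, add_zero]
      exact shadow_zero _
    · rcases lt_or_ge x (a N) with hx2 | hx2
      · have c2 : ¬ a N ≤ x := not_le.2 hx2
        have c3 : ¬ (1 : ℝ) ≤ x := by push Not; linarith
        simp only [if_pos hx1, if_neg c2, if_neg c3, add_zero]
        have r1 : pt (3 / 10) (0 : ℝ) + pt (m (N + 1) - 3 / 10) 1 =
            at3 0 (3 / 10) (m (N + 1) - 3 / 10) (-1) 0 1 := by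
          rw [at3_pt, pt_zero, zero_add]
        have r2 : pt (m (N + 1)) (a (N + 1)) = at3 0 (m (N + 1)) 0 0 (a (N + 1)) 1 := by
          rw [at3_pt, pt_zero, pt_zero, zero_add, add_zero]
        rw [r1, r2]
        refine h2 _ _ _ _ _ _ _ (by norm_num) (by norm_num) (by linarith) ?_ (by norm_num)
          (by norm_num) _ (at3_int _) ?_
        · have := m_anti.antitone (show 1 ≤ N + 1 by omega)
          rw [m_one] at this
          linarith
        · refine cvxLE_at3 le_rfl mp1.le le_rfl le_rfl (by norm_num) (by linarith) (by ring)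
            fun f hf => ?_
          have := hcv1 f hf
          linarith
      · have hsum : (if a (N + 1) ≤ x then pt (3 / 10) (0 : ℝ) else 0) +
            (if a (N + 1) ≤ x then pt (m (N + 1) - 3 / 10) (1 : ℝ) else 0) +
            (if a N ≤ x then pt (3 / 20) (-1 : ℝ) else 0) +
            (if a N ≤ x then pt (m N - 3 / 20) (1 : ℝ) else 0) +
            (if (1 : ℝ) ≤ x then pt (1 - m (N + 1) - m N) (1 : ℝ) else 0) =
            at3 (3 / 20) (3 / 10) (m (N + 1) - 3 / 10 + (m N - 3 / 20) +
              (if (1 : ℝ) ≤ x then 1 - m (N + 1) - m N else 0)) (-1) 0 1 := by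
          have hite : (if (1 : ℝ) ≤ x then pt (1 - m (N + 1) - m N) (1 : ℝ) else 0) =
              pt (if (1 : ℝ) ≤ x then 1 - m (N + 1) - m N else 0) 1 := by
            split_ifs
            · rfl
            · rw [pt_zero]
          rw [hite, if_pos hx1, if_pos hx1, if_pos hx2, if_pos hx2, at3_pt,
            pt_add (by linarith) (by split_ifs <;> linarith), pt_add (by linarith) (by linarith)]
          abel
        have hα : (if a (N + 1) ≤ x then pt (m (N + 1)) (a (N + 1)) else 0) +
            (if a N ≤ x then pt (m N) (a N) else 0) +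
            (if (1 : ℝ) ≤ x then pt (1 - m (N + 1) - m N) (1 : ℝ) else 0) =
            at3 (m (N + 1)) (m N) (if (1 : ℝ) ≤ x then 1 - m (N + 1) - m N else 0)
              (a (N + 1)) (a N) 1 := by
          rw [if_pos hx1, if_pos hx2, at3_pt]
          congr 1
          split_ifs
          · rfl
          · rw [pt_zero]
        rw [hsum, hα]
        have hc : 0 ≤ (if (1 : ℝ) ≤ x then 1 - m (N + 1) - m N else 0) := by
          split_ifs <;> linarith
        have hc' : (if (1 : ℝ) ≤ x then 1 - m (N + 1) - m N else 0) ≤ 1 - m (N + 1) - m N := by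
          split_ifs <;> linarith
        refine h1 _ _ _ _ _ _ _ (by norm_num) (by norm_num) (by linarith) (by linarith)
          (by norm_num) (by norm_num) _ (at3_int _) ?_
        · refine cvxLE_at3 mp1.le mp0.le hc (by norm_num) (by norm_num) (by linarith) (by ring)
            fun f hf => ?_
          have := hcv0 f hf
          have := hcv1 f hf
          linarith

end Pool.Agent.T2h33.LC
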