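import Pool.Agent.T2h33.LC.Stm

set_option autoImplicit false

open MeasureTheory ProbabilityTheory Filter Topology Set
open scoped NNReal ENNReal unitInterval

namespace Pool.Agent.T2h33.LC

namespace SHBh

theorem le_at3 {u v w z₁ z₂ z₃ u' v' w' : ℝ} (hu : u' ≤ u) (hv : v' ≤ v) (hw : w' ≤ w) :
    at3 u' v' w' z₁ z₂ z₃ ≤ at3 u v w z₁ z₂ z₃ := by
  rw [Measure.le_iff]
  intro s _
  unfold at3
  simp only [Measure.coe_add, Measure.coe_smul, Pi.add_apply, Pi.smul_apply, smul_eq_mul]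
  gcongr

theorem mass {u v w z₁ z₂ z₃ u' v' w' : ℝ} (hu : 0 ≤ u) (hv : 0 ≤ v) (hw : 0 ≤ w)
    (hu' : 0 ≤ u') (hv' : 0 ≤ v') (hw' : 0 ≤ w') {α : Measure ℝ}
    (h : CvxLE α (at3 u v w z₁ z₂ z₃)) (h' : CvxLE α (at3 u' v' w' z₁ z₂ z₃)) :
    u + v + w = u' + v' + w' := by
  have h1 := h.1.symm.trans h'.1
  rw [at3_univ hu hv hw, at3_univ hu' hv' hw',
    ENNReal.ofReal_eq_ofReal_iff (by positivity) (by positivity)] at h1
  exact h1

theorem mean {u v w z₁ z₂ z₃ : ℝ} (hu : 0 ≤ u) (hv : 0 ≤ v) (hw : 0 ≤ w) {α : Measure ℝ}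
    (hα : Integrable (fun x => x) α) (h : CvxLE α (at3 u v w z₁ z₂ z₃)) :
    ∫ x, x ∂α = u * z₁ + v * z₂ + w * z₃ := by
  have h1 := h.2 (fun x => x) (convexOn_id convex_univ) hα (at3_int _)
  have h2 := h.2 (fun x => -x) (concaveOn_id convex_univ).neg hα.neg (at3_int _)
  rw [at3_integral hu hv hw] at h1 h2
  rw [integral_neg] at h2
  linarith

end SHBh

theorem prove_SHB (h1 : S_ATO) : S_SHB := by
  intro u v w z₁ z₂ z₃ w' hu hv hw' hww h12 h23 α hα hc
  refine ⟨SHBh.le_at3 le_rfl le_rfl hww, hc, ?_⟩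
  intro η' hη' hc'
  obtain ⟨u', v', w'', hu0, hu1, hv0, hv1, hw0, hw1, rfl⟩ :=
    h1 u v w z₁ z₂ z₃ hu hv (hw'.trans hww) h12 h23 η' hη'
  have e1 := SHBh.mass hu hv hw' hu0 hv0 hw0 hc hc'
  have e2 := (SHBh.mean hu hv hw' hα hc).symm.trans (SHBh.mean hu0 hv0 hw0 hα hc')
  have p1 : 0 ≤ (u - u') * (z₃ - z₁) := mul_nonneg (by linarith) (by linarith)
  have p2 : 0 ≤ (v - v') * (z₃ - z₂) := mul_nonneg (by linarith) (by linarith)
  have p3 : (u - u') * (z₃ - z₁) + (v - v') * (z₃ - z₂) = 0 := by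
    have : w'' = w' + (u - u') + (v - v') := by linarith
    rw [this] at e2
    linear_combination -e2
  have q1 : (u - u') * (z₃ - z₁) = 0 := by linarith
  have q2 : (v - v') * (z₃ - z₂) = 0 := by linarith
  have r1 : u - u' = 0 := by
    rcases mul_eq_zero.1 q1 with h | h
    · exact h
    · exfalso; linarith
  have r2 : v - v' = 0 := by
    rcases mul_eq_zero.1 q2 with h | h
    · exact h
    · exfalso; linarith
  have s1 : u' = u := by linarith
  have s2 : v' = v := by linarith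
  have s3 : w'' = w' := by linarith
  rw [s1, s2, s3]
  exact CvxLE.rfl' _

end Pool.Agent.T2h33.LC
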