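import Pool.Agent.T2h33.LC.SHB

set_option autoImplicit false

open MeasureTheory ProbabilityTheory Filter Topology Set
open scoped NNReal ENNReal unitInterval

namespace Pool.Agent.T2h33.LC

theorem prove_SHC (h1 : S_ATO) : S_SHC := by
  intro u v w z₁ z₂ z₃ w' hu hv hw' hww h12 h23 α hα hc
  refine ⟨SHBh.le_at3 hu le_rfl hww, hc, ?_⟩
  intro η' hη' hc'
  obtain ⟨u', v', w'', hu0, hu1, hv0, hv1, hw0, hw1, rfl⟩ :=
    h1 u v w z₁ z₂ z₃ hu hv (hw'.trans hww) h12 h23 η' hη'
  have e1 := SHBh.mass le_rfl hv hw' hu0 hv0 hw0 hc hc'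
  have e2 := (SHBh.mean le_rfl hv hw' hα hc).symm.trans (SHBh.mean hu0 hv0 hw0 hα hc')
  have e3 : (w'' - w') * (z₃ - z₂) = u' * (z₂ - z₁) := by
    have : v' = v + w' - u' - w'' := by linarith
    rw [this] at e2
    linear_combination -e2
  have e4 : 0 ≤ w'' - w' := by
    have p1 : 0 ≤ u' * (z₂ - z₁) := mul_nonneg hu0 (by linarith)
    rw [← e3] at p1
    exact nonneg_of_mul_nonneg_left p1 (by linarith)
  refine cvxLE_at3 le_rfl hv hw' hu0 hv0 hw0 e1 fun f hf => ?_
  have h5 := two_point hf (p := v - v') (q := u') (r := w'' - w') (z := z₂) (z₁ := z₁) (z₂ := z₃)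
    hu0 e4 (by linarith) (by
      have : v - v' = u' + (w'' - w') := by linarith
      rw [this]
      linear_combination -e3)
  linarith

end Pool.Agent.T2h33.LC
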