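import Pool.Agent.T2h33.LC.Stm

/-! # WK1: the stopped paths converge for Skorokhod's distance -/

set_option autoImplicit false
set_option linter.all false

open MeasureTheory ProbabilityTheory Filter Topology Set
open scoped NNReal ENNReal unitInterval

namespace Pool.Agent.T2h33.LC

theorem WK1_pos_le (N e k : ℕ) (h : N ≤ k) : pos e k ≤ a N :=
  (pos_le e k).trans (a_anti.antitone h)

theorem WK1_skd (N e : ℕ) (z : ℝ) : skd (xN N e z) (xS e z) ≤ ENNReal.ofReal (a N) := by
  unfold skd
  refine (iInf_le _ (OrderIso.refl I)).trans ?_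
  refine max_le ?_ ?_
  · refine iSup_le fun t => ?_
    rw [OrderIso.refl_apply, edist_self]
    exact bot_le
  · refine iSup_le fun t => ?_
    rw [OrderIso.refl_apply]
    rcases lt_or_eq_of_le t.2.2 with ht | ht
    · rw [xN_lt N e z ht, xS_lt e z ht, edist_dist]
      refine ENNReal.ofReal_le_ofReal ?_
      unfold bN
      rw [Real.dist_eq]
      rcases le_total (idx t) N with h | h
      · rw [min_eq_left h, sub_self, abs_zero]
        exact (a_pos N).le
      · rw [min_eq_right h, abs_le]
        have h1 := pos_pos e (idx t)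
        have h2 := pos_pos e N
        have h3 := WK1_pos_le N e (idx t) h
        have h4 := pos_le e N
        constructor <;> linarith
    · have h4 : t = 1 := Subtype.ext ht
      rw [h4, xN_one, xS_one, edist_self]
      exact bot_le

theorem prove_WK1 : S_WK1 := by
  intro F hF e z
  rw [Metric.tendsto_atTop]
  intro ε hε
  obtain ⟨δ, hδ, h⟩ := hF (xS e z) ε hε
  obtain ⟨N, hN⟩ := (Metric.tendsto_atTop.1 tendsto_a) δ hδ
  refine ⟨N, fun n hn => ?_⟩
  rw [Real.dist_eq]
  apply h
  refine (WK1_skd n e z).trans_lt ?_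
  have h1 := hN n hn
  rw [Real.dist_eq, sub_zero, abs_of_pos (a_pos n)] at h1
  exact (ENNReal.ofReal_lt_ofReal_iff hδ).2 h1

end Pool.Agent.T2h33.LC
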