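import Pool.Agent.T2h33.LC.Stm

/-! # WK2: the integrals of bounded functions -/

set_option autoImplicit false
set_option linter.all false

open MeasureTheory ProbabilityTheory Filter Topology Set
open scoped NNReal ENNReal unitInterval

namespace Pool.Agent.T2h33.LC

theorem prove_WK2 : S_WK2 := by
  intro F hFb
  obtain ⟨C, hC⟩ := hFb
  have hm : ∀ N, 0 ≤ m (N + 1) - 3 / 10 := fun N => by linarith [m_gt (N + 1)]
  have hm' : ∀ N, 0 ≤ m N - 3 / 20 := fun N => by linarith [m_gt N]
  constructor
  · intro N
    unfold PN
    have hA : Integrable F (∑ i ∈ Finset.range N, ENNReal.ofReal (w i) • Measure.dirac (xA i)) :=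
      integrable_finsetSum_measure.2 fun i _ => int_dirac F (xA i) (w i)
    have h1 := int_dirac F (xN N (N + 1) 0) (3 / 10)
    have h2 := int_dirac F (xN N (N + 1) 1) (m (N + 1) - 3 / 10)
    have h3 := int_dirac F (xN N N (-1)) (3 / 20)
    have h4 := int_dirac F (xN N N 1) (m N - 3 / 20)
    rw [integral_add_measure hA (((h1.add_measure h2).add_measure h3).add_measure h4),
      integral_add_measure ((h1.add_measure h2).add_measure h3) h4,
      integral_add_measure (h1.add_measure h2) h3, integral_add_measure h1 h2,
      integral_finsetSum_measure fun i _ => int_dirac F (xA i) (w i),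
      integral_dirac_smul F _ (by norm_num : (0 : ℝ) ≤ 3 / 10), integral_dirac_smul F _ (hm N),
      integral_dirac_smul F _ (by norm_num : (0 : ℝ) ≤ 3 / 20), integral_dirac_smul F _ (hm' N)]
    congr 1
    exact Finset.sum_congr rfl fun i _ => integral_dirac_smul F _ (w_pos i).le
  · intro r
    unfold PL
    have hA : Integrable F
        (Measure.sum (fun i : ℕ => ENNReal.ofReal (w i) • Measure.dirac (xA i))) := by
      refine integrable_sum_dirac (fun i => ENNReal.ofReal_ne_top) ?_
      refine Summable.of_nonneg_of_le (fun i => by positivity) (fun i => ?_)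
        (hasSum_w.summable.mul_right C)
      rw [ENNReal.toReal_ofReal (w_pos i).le, Real.norm_eq_abs]
      exact mul_le_mul_of_nonneg_left (hC _) (w_pos i).le
    have h1 := int_dirac F (xS (r + 1) 0) (3 / 10)
    have h3 := int_dirac F (xS r (-1)) (3 / 20)
    have h4 := int_dirac F (xS r 1) (3 / 20)
    rw [integral_add_measure hA ((h1.add_measure h3).add_measure h4),
      integral_add_measure (h1.add_measure h3) h4,
      integral_add_measure h1 h3,
      integral_sum_dirac (fun i => ENNReal.ofReal_ne_top),
      integral_dirac_smul F _ (by norm_num : (0 : ℝ) ≤ 3 / 10),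
      integral_dirac_smul F _ (by norm_num : (0 : ℝ) ≤ 3 / 20),
      integral_dirac_smul F _ (by norm_num : (0 : ℝ) ≤ 3 / 20)]
    congr 1
    refine tsum_congr fun i => ?_
    rw [ENNReal.toReal_ofReal (w_pos i).le, smul_eq_mul]

end Pool.Agent.T2h33.LC
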