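import Pool.Agent.T2h33.LC.Stm

/-! # WK3: weak convergence along the levels of one parity -/

set_option autoImplicit false
set_option linter.all false

open MeasureTheory ProbabilityTheory Filter Topology Set
open scoped NNReal ENNReal unitInterval

namespace Pool.Agent.T2h33.LC

theorem WK3_xN (N : ℕ) {e e' : ℕ} (h : e % 2 = e' % 2) (z : ℝ) : xN N e z = xN N e' z := by
  apply Subtype.ext
  have h1 : bN N e = bN N e' := by
    funext k
    exact pos_congr h _
  change pth (bN N e) z = pth (bN N e') z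
  rw [h1]

theorem prove_WK3 (h1 : S_WK1) (h2 : S_WK2) : S_WK3 := by
  intro r F hF hFb
  obtain ⟨h3, h4⟩ := h2 F hFb
  obtain ⟨C, hC⟩ := hFb
  rw [h4 r]
  have e1 : (fun n => ∫ x, F x ∂(PN (2 * n + r))) = fun n : ℕ =>
      ∑ i ∈ Finset.range (2 * n + r), w i * F (xA i) +
      (3 / 10 * F (xN (2 * n + r) (r + 1) 0) +
        (m (2 * n + r + 1) - 3 / 10) * F (xN (2 * n + r) (r + 1) 1) +
        3 / 20 * F (xN (2 * n + r) r (-1)) + (m (2 * n + r) - 3 / 20) * F (xN (2 * n + r) r 1)) := by
    funext n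
    rw [h3 (2 * n + r), WK3_xN (2 * n + r) (show (2 * n + r + 1) % 2 = (r + 1) % 2 by omega),
      WK3_xN (2 * n + r) (show (2 * n + r + 1) % 2 = (r + 1) % 2 by omega),
      WK3_xN (2 * n + r) (show (2 * n + r) % 2 = r % 2 by omega),
      WK3_xN (2 * n + r) (show (2 * n + r) % 2 = r % 2 by omega)]
  rw [e1]
  have hsub : Tendsto (fun n : ℕ => 2 * n + r) atTop atTop :=
    tendsto_atTop_mono (fun n => by change n ≤ 2 * n + r; omega) tendsto_id
  have hsum : Summable fun i => w i * F (xA i) := by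
    refine Summable.of_norm_bounded (hasSum_w.summable.mul_right C) fun i => ?_
    rw [Real.norm_eq_abs, abs_mul, abs_of_pos (w_pos i)]
    exact mul_le_mul_of_nonneg_left (hC _) (w_pos i).le
  have t0 := hsum.hasSum.tendsto_sum_nat.comp hsub
  have t1 := ((h1 F hF (r + 1) 0).comp hsub).const_mul (3 / 10 : ℝ)
  have tm : Tendsto (fun n : ℕ => m (2 * n + r) - 3 / 20) atTop (𝓝 (3 / 20)) := by
    have := (tendsto_m.comp hsub).sub_const (3 / 20)
    have e : (3 / 10 - 3 / 20 : ℝ) = 3 / 20 := by norm_num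
    rw [e] at this
    exact this
  have tm' : Tendsto (fun n : ℕ => m (2 * n + r + 1) - 3 / 10) atTop (𝓝 0) := by
    have := ((tendsto_m.comp (tendsto_add_atTop_nat 1)).comp hsub).sub_const (3 / 10)
    rw [sub_self] at this
    exact this
  have t2 := tm'.mul ((h1 F hF (r + 1) 1).comp hsub)
  rw [zero_mul] at t2
  have t3 := ((h1 F hF r (-1)).comp hsub).const_mul (3 / 20 : ℝ)
  have t4 := tm.mul ((h1 F hF r 1).comp hsub)
  have t5 := t0.add (((t1.add t2).add t3).add t4)
  rw [add_zero] at t5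
  exact t5

end Pool.Agent.T2h33.LC
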