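import Pool.Agent.T2h33.LC.Fin
import Pool.Agent.T2h33.LC.ATO
import Pool.Agent.T2h33.LC.CST
import Pool.Agent.T2h33.LC.GRD
import Pool.Agent.T2h33.LC.LW0
import Pool.Agent.T2h33.LC.LW1
import Pool.Agent.T2h33.LC.LW2
import Pool.Agent.T2h33.LC.LW3
import Pool.Agent.T2h33.LC.MKL
import Pool.Agent.T2h33.LC.MKN
import Pool.Agent.T2h33.LC.MKV
import Pool.Agent.T2h33.LC.MSH
import Pool.Agent.T2h33.LC.NEQ
import Pool.Agent.T2h33.LC.PEA
import Pool.Agent.T2h33.LC.PRB
import Pool.Agent.T2h33.LC.PSI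
import Pool.Agent.T2h33.LC.RCO
import Pool.Agent.T2h33.LC.SC0
import Pool.Agent.T2h33.LC.SC1
import Pool.Agent.T2h33.LC.SC2
import Pool.Agent.T2h33.LC.SHB
import Pool.Agent.T2h33.LC.SHC
import Pool.Agent.T2h33.LC.WK1
import Pool.Agent.T2h33.LC.WK2
import Pool.Agent.T2h33.LC.WK3

/-!
# The theorem
-/

set_option autoImplicit false

open MeasureTheory ProbabilityTheory Filter Topology Set
open scoped NNReal ENNReal unitInterval

namespace Pool.Agent.T2h33.LC

theorem fin : ∃ μ : I → Measure ℝ, IsPeacock μ ∧ RightCont μ ∧ ∃ P P' : Measure D01, P ≠ P' ∧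
    P ∈ LimCurt μ ∧ P' ∈ LimCurt μ ∧ IsMarkov P ∧ IsMarkov P' := by
  have ato := prove_ATO
  have shb := prove_SHB ato
  have shc := prove_SHC ato
  have mkn := prove_MKN prove_PRB prove_MKV
  exact fin_of prove_PEA prove_RCO prove_PRB (prove_MKL prove_PRB prove_MKV) prove_NEQ prove_MSH
    (prove_PSI prove_PRB mkn (prove_CST prove_GRD) prove_GRD prove_SC0 (prove_SC1 shb)
      (prove_SC2 shb shc) (prove_LW0 prove_LW1) (prove_LW2 prove_LW1) prove_LW3)
    (prove_WK3 prove_WK1 prove_WK2)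

end Pool.Agent.T2h33.LC
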