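import Pool.Agent.T2h33.LC.Defs

/-! # Basic facts: numbers, measurability of the coordinates, measures with few atoms -/

set_option autoImplicit false

open MeasureTheory ProbabilityTheory Filter Topology Set
open scoped NNReal ENNReal unitInterval

namespace Pool.Agent.T2h33.LC

/-! ### numbers -/

theorem a_pos (k : ℕ) : 0 < a k := by unfold a; positivity

theorem a_succ (k : ℕ) : a (k + 1) = a k / 2 := by unfold a; ring

theorem a_lt (k : ℕ) : a (k + 1) < a k := by rw [a_succ]; linarith [a_pos k]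

theorem a_anti : StrictAnti a := strictAnti_nat_of_succ_lt a_lt

theorem a_inj : Function.Injective a := a_anti.injective

theorem a_le_half (k : ℕ) : a k ≤ 1 / 2 := by
  have h := a_anti.antitone (Nat.zero_le k)
  have : a 0 = 1 / 2 := by unfold a; norm_num
  linarith

theorem a_ne_one (k : ℕ) : a k ≠ 1 := by have := a_le_half k; intro h; linarith

theorem tendsto_a : Tendsto a atTop (𝓝 0) := by
  have h1 : Tendsto (fun k : ℕ => (1 / 2 : ℝ) ^ k) atTop (𝓝 0) :=
    tendsto_pow_atTop_nhds_zero_of_lt_one (by norm_num) (by norm_num)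
  exact h1.comp (tendsto_add_atTop_nat 1)

theorem g_pos (k : ℕ) : 0 < g k := by unfold g; linarith [a_le_half k]

theorem g_lt_one (k : ℕ) : g k < 1 := by unfold g; linarith [a_pos k]

theorem g_mono : StrictMono g := fun i j h => by unfold g; linarith [a_anti h]

/-- the mass times the distance from `1` -/
theorem m_mul_g (k : ℕ) : m k * g k = 3 / 10 := by
  unfold m
  have := (g_pos k).ne'
  field_simp

theorem m_mul_a (k : ℕ) : m k * a k = m k - 3 / 10 := by
  have h := m_mul_g k
  unfold g at h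
  linarith

theorem m_pos (k : ℕ) : 0 < m k := div_pos (by norm_num) (g_pos k)

theorem m_anti : StrictAnti m := fun i j h => by
  unfold m
  exact div_lt_div_of_pos_left (by norm_num) (g_pos i) (g_mono h)

theorem m_gt (k : ℕ) : 3 / 10 < m k := by
  unfold m
  rw [lt_div_iff₀ (g_pos k)]
  linarith [g_lt_one k]

theorem m_zero : m 0 = 3 / 5 := by unfold m g a; norm_num

theorem m_one : m 1 = 2 / 5 := by unfold m g a; norm_num

theorem tendsto_m : Tendsto m atTop (𝓝 (3 / 10)) := by
  have h1 : Tendsto g atTop (𝓝 (1 - 0)) := tendsto_const_nhds.sub tendsto_a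
  have h2 : Tendsto m atTop (𝓝 (3 / 10 / (1 - 0))) := tendsto_const_nhds.div h1 (by norm_num)
  simpa using h2

theorem w_pos (i : ℕ) : 0 < w i := by unfold w; linarith [m_anti (show i < i + 2 by omega)]

theorem m_add_le (k : ℕ) : m (k + 1) + m k ≤ 1 := by
  have h1 := m_anti.antitone (Nat.zero_le k)
  have h2 := m_anti.antitone (show 1 ≤ k + 1 by omega)
  rw [m_zero] at h1
  rw [m_one] at h2
  linarith

theorem sum_w (n : ℕ) : ∑ i ∈ Finset.range n, w i = 1 - m n - m (n + 1) := by
  induction n with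
  | zero => rw [Finset.sum_range_zero, m_zero, m_one]; norm_num
  | succ n ih => rw [Finset.sum_range_succ, ih]; unfold w; ring

theorem hasSum_w : HasSum w (2 / 5) := by
  have h : Tendsto (fun n => ∑ i ∈ Finset.range n, w i) atTop (𝓝 (2 / 5)) := by
    simp only [sum_w]
    have h1 := (tendsto_const_nhds (x := (1 : ℝ))).sub tendsto_m
    have h2 := h1.sub (tendsto_m.comp (tendsto_add_atTop_nat 1))
    have e : (1 - 3 / 10 - 3 / 10 : ℝ) = 2 / 5 := by norm_num
    rw [e] at h2
    exact h2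
  exact (hasSum_iff_tendsto_nat_of_nonneg (fun i => (w_pos i).le) _).2 h

theorem pos_ne_one (e k : ℕ) : pos e k ≠ 1 := a_ne_one _

theorem pos_pos (e k : ℕ) : 0 < pos e k := a_pos _

theorem pos_le (e k : ℕ) : pos e k ≤ a k := by
  unfold pos
  split_ifs
  · exact le_rfl
  · exact (a_lt k).le

theorem pos_self (k : ℕ) : pos k k = a k := by unfold pos; rw [if_pos rfl]

theorem pos_succ_self (k : ℕ) : pos (k + 1) k = a (k + 1) := by
  unfold pos; rw [if_neg (by omega)]

/-- positions of the two particles are different -/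
theorem pos_eq_iff (e e' k : ℕ) : pos e k = pos e' k ↔ e % 2 = e' % 2 := by
  unfold pos
  rw [a_inj.eq_iff]
  split_ifs <;> omega

theorem pos_congr {e e' : ℕ} (h : e % 2 = e' % 2) (k : ℕ) : pos e k = pos e' k :=
  (pos_eq_iff e e' k).2 h

/-! ### the index -/

theorem idx_mono {s t : I} (h : s ≤ t) (ht : (t : ℝ) < 1) : idx s ≤ idx t := by
  have hs : (s : ℝ) < 1 := lt_of_le_of_lt h ht
  obtain ⟨k, hk⟩ : ∃ k, idx t = k := ⟨_, rfl⟩
  obtain ⟨j, hj⟩ : ∃ j, idx s = j := ⟨_, rfl⟩
  have h1 := (idx_eq_iff ht k).1 hk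
  have h2 := (idx_eq_iff hs j).1 hj
  rw [hk, hj]
  by_contra hcon
  push Not at hcon
  have h7 : (1 / 2 : ℝ) ^ j ≤ (1 / 2 : ℝ) ^ (k + 1) :=
    pow_le_pow_of_le_one (by norm_num) (by norm_num) (by omega)
  have h3 : (s : ℝ) ≤ t := h
  linarith [h1.2, h2.1]

theorem idx_zero : idx 0 = 0 := by
  rw [idx_eq_iff (by simp)]
  constructor
  · simp
  · simp only [Icc.coe_zero]
    norm_num

/-! ### values of the paths -/

theorem xA_lt (i : ℕ) {t : I} (ht : (t : ℝ) < 1) : (xA i).1 t = bA i (idx t) := if_pos ht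
theorem xA_one (i : ℕ) : (xA i).1 1 = 1 := if_neg (by simp)
theorem xS_lt (e : ℕ) (z : ℝ) {t : I} (ht : (t : ℝ) < 1) : (xS e z).1 t = pos e (idx t) := if_pos ht
theorem xS_one (e : ℕ) (z : ℝ) : (xS e z).1 1 = z := if_neg (by simp)
theorem xN_lt (N e : ℕ) (z : ℝ) {t : I} (ht : (t : ℝ) < 1) : (xN N e z).1 t = bN N e (idx t) :=
  if_pos ht
theorem xN_one (N e : ℕ) (z : ℝ) : (xN N e z).1 1 = z := if_neg (by simp)

/-! ### measurability -/

theorem meas_eval (t : I) : Measurable fun x : D01 => x.1 t :=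
  (measurable_pi_apply t).comp measurable_subtype_coe

theorem past_le (s : I) : past s ≤ (inferInstance : MeasurableSpace D01) :=
  iSup₂_le fun r _ => (meas_eval r).comap_le

theorem present_le (s : I) : present s ≤ (inferInstance : MeasurableSpace D01) :=
  (meas_eval s).comap_le

theorem present_le_past (s : I) : present s ≤ past s :=
  le_iSup₂ (f := fun (r : I) (_ : r ≤ s) => MeasurableSpace.comap (fun x : D01 => x.1 r) inferInstance)
    s le_rfl

/-- two càdlàg functions which agree on a dense set which contains `1` are equal -/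
theorem ext_dense {x y : D01} {D : Set I} (hD : Dense D) (h1 : x.1 1 = y.1 1)
    (h : ∀ t ∈ D, x.1 t = y.1 t) : x = y := by
  apply Subtype.ext
  funext t
  rcases eq_or_lt_of_le (show t ≤ 1 from t.2.2) with ht | ht
  · rw [ht]; exact h1
  · have hx := (x.2 t).1
    have hy := (y.2 t).1
    have hne : (𝓝[Ioi t ∩ D] t).NeBot := by
      rw [← mem_closure_iff_nhdsWithin_neBot]
      have h2 : t ∈ closure (Ioi t) := by
        rw [closure_Ioi' (show (Ioi t).Nonempty from ⟨1, ht⟩)]
        exact mem_Ici.2 le_rfl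
      exact (closure_minimal (hD.open_subset_closure_inter isOpen_Ioi) isClosed_closure) h2
    have hsub : Ioi t ∩ D ⊆ Ici t := fun s hs => (show t < s from hs.1).le
    have h3 := hx.mono_left (nhdsWithin_mono t hsub)
    have h4 := hy.mono_left (nhdsWithin_mono t hsub)
    have h5 : x.1 =ᶠ[𝓝[Ioi t ∩ D] t] y.1 := by
      filter_upwards [self_mem_nhdsWithin] with s hs
      exact h s hs.2
    exact tendsto_nhds_unique h3 (h4.congr' h5.symm)

instance : MeasurableSingletonClass D01 := ⟨fun x => by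
  obtain ⟨D, hDc, hD⟩ := TopologicalSpace.exists_countable_dense I
  have e : ({x} : Set D01) = {y : D01 | y.1 1 = x.1 1} ∩ ⋂ t ∈ D, {y : D01 | y.1 t = x.1 t} := by
    ext y
    simp only [mem_singleton_iff, mem_inter_iff, mem_ofPred_eq, mem_iInter]
    constructor
    · rintro rfl
      exact ⟨rfl, fun _ _ => rfl⟩
    · rintro ⟨h1, h2⟩
      exact ext_dense hD h1 h2
  rw [e]
  refine MeasurableSet.inter ?_ (MeasurableSet.biInter hDc fun t _ => ?_)
  · exact meas_eval 1 (measurableSet_singleton _)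
  · exact meas_eval t (measurableSet_singleton _)⟩

/-! ### measures with finitely many atoms -/

/-- three atoms -/
noncomputable def at3 (u v w z₁ z₂ z₃ : ℝ) : Measure ℝ :=
  ENNReal.ofReal u • Measure.dirac z₁ + ENNReal.ofReal v • Measure.dirac z₂ +
    ENNReal.ofReal w • Measure.dirac z₃

theorem S_eq (k : ℕ) : S k = at3 (m (k + 1)) (m k) (1 - m (k + 1) - m k) (a (k + 1)) (a k) 1 := rfl

theorem Fm_eq : Fm = at3 (3 / 20) (3 / 10) (11 / 20) (-1) 0 1 := rfl

section at3

variable {u v w z₁ z₂ z₃ : ℝ}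

instance : IsFiniteMeasure (at3 u v w z₁ z₂ z₃) := by
  constructor
  unfold at3
  simp

theorem int_dirac {α : Type*} [MeasurableSpace α] [MeasurableSingletonClass α] (f : α → ℝ) (x : α)
    (c : ℝ) : Integrable f (ENNReal.ofReal c • Measure.dirac x) :=
  (integrable_dirac (by simp)).smul_measure ENNReal.ofReal_ne_top

theorem integral_dirac_smul {α : Type*} [MeasurableSpace α] [MeasurableSingletonClass α] (f : α → ℝ)
    (x : α) {c : ℝ} (hc : 0 ≤ c) : ∫ y, f y ∂(ENNReal.ofReal c • Measure.dirac x) = c * f x := by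
  rw [integral_smul_measure, integral_dirac, ENNReal.toReal_ofReal hc, smul_eq_mul]

theorem at3_int (f : ℝ → ℝ) : Integrable f (at3 u v w z₁ z₂ z₃) :=
  ((int_dirac f z₁ u).add_measure (int_dirac f z₂ v)).add_measure (int_dirac f z₃ w)

theorem at3_integral (hu : 0 ≤ u) (hv : 0 ≤ v) (hw : 0 ≤ w) (f : ℝ → ℝ) :
    ∫ x, f x ∂(at3 u v w z₁ z₂ z₃) = u * f z₁ + v * f z₂ + w * f z₃ := by
  unfold at3
  rw [integral_add_measure ((int_dirac f z₁ u).add_measure (int_dirac f z₂ v)) (int_dirac f z₃ w),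
    integral_add_measure (int_dirac f z₁ u) (int_dirac f z₂ v), integral_dirac_smul f z₁ hu,
    integral_dirac_smul f z₂ hv, integral_dirac_smul f z₃ hw]

theorem at3_univ (hu : 0 ≤ u) (hv : 0 ≤ v) (hw : 0 ≤ w) :
    at3 u v w z₁ z₂ z₃ univ = ENNReal.ofReal (u + v + w) := by
  unfold at3
  simp only [Measure.coe_add, Measure.coe_smul, Pi.add_apply, Pi.smul_apply, smul_eq_mul,
    measure_univ, mul_one]
  rw [ENNReal.ofReal_add (by positivity) hw, ENNReal.ofReal_add hu hv]

end at3

/-! ### convexity -/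

/-- convexity at two points -/
theorem two_point {f : ℝ → ℝ} (hf : ConvexOn ℝ univ f) {p q r z z₁ z₂ : ℝ} (hq : 0 ≤ q) (hr : 0 ≤ r)
    (h1 : p = q + r) (h2 : p * z = q * z₁ + r * z₂) : p * f z ≤ q * f z₁ + r * f z₂ := by
  rcases eq_or_lt_of_le (add_nonneg hq hr) with h | h
  · have hq0 : q = 0 := by linarith
    have hr0 : r = 0 := by linarith
    subst hq0 hr0
    rw [h1]
    simp
  · have h3 := hf.2 (mem_univ z₁) (mem_univ z₂) (div_nonneg hq h.le) (div_nonneg hr h.le)
      (by field_simp)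
    simp only [smul_eq_mul] at h3
    have h4 : q / (q + r) * z₁ + r / (q + r) * z₂ = z := by
      rw [h1] at h2
      field_simp
      linarith
    rw [h4] at h3
    rw [h1]
    calc (q + r) * f z ≤ (q + r) * (q / (q + r) * f z₁ + r / (q + r) * f z₂) :=
          mul_le_mul_of_nonneg_left h3 h.le
      _ = q * f z₁ + r * f z₂ := by field_simp

/-- the convex order for measures with three atoms -/
theorem cvxLE_at3 {u v w z₁ z₂ z₃ u' v' w' z₁' z₂' z₃' : ℝ} (hu : 0 ≤ u) (hv : 0 ≤ v) (hw : 0 ≤ w)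
    (hu' : 0 ≤ u') (hv' : 0 ≤ v') (hw' : 0 ≤ w') (h1 : u + v + w = u' + v' + w')
    (h2 : ∀ f : ℝ → ℝ, ConvexOn ℝ univ f →
      u * f z₁ + v * f z₂ + w * f z₃ ≤ u' * f z₁' + v' * f z₂' + w' * f z₃') :
    CvxLE (at3 u v w z₁ z₂ z₃) (at3 u' v' w' z₁' z₂' z₃') := by
  refine ⟨?_, fun f hf _ _ => ?_⟩
  · rw [at3_univ hu hv hw, at3_univ hu' hv' hw', h1]
  · rw [at3_integral hu hv hw, at3_integral hu' hv' hw']
    exact h2 f hf

theorem CvxLE.rfl' (α : Measure ℝ) : CvxLE α α := ⟨rfl, fun _ _ _ _ => le_rfl⟩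

/-! ### the couplings -/

/-- the left-curtain coupling of `S k` and `S (k + 1)` -/
noncomputable def cp1 (k : ℕ) : Measure (ℝ × ℝ) :=
  ENNReal.ofReal (m (k + 1)) • Measure.dirac (a (k + 1), a (k + 1)) +
    ENNReal.ofReal (m (k + 2)) • Measure.dirac (a k, a (k + 2)) +
    ENNReal.ofReal (m k - m (k + 2)) • Measure.dirac (a k, 1) +
    ENNReal.ofReal (1 - m (k + 1) - m k) • Measure.dirac (1, 1)

/-- the left-curtain coupling of `S N` and `Fm` -/
noncomputable def cp2 (N : ℕ) : Measure (ℝ × ℝ) :=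
  ENNReal.ofReal (3 / 10) • Measure.dirac (a (N + 1), 0) +
    ENNReal.ofReal (m (N + 1) - 3 / 10) • Measure.dirac (a (N + 1), 1) +
    ENNReal.ofReal (3 / 20) • Measure.dirac (a N, -1) +
    ENNReal.ofReal (m N - 3 / 20) • Measure.dirac (a N, 1) +
    ENNReal.ofReal (1 - m (N + 1) - m N) • Measure.dirac (1, 1)

end Pool.Agent.T2h33.LC
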