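import Mathlib

/-!
# Two Markovian limit curtain processes for one peacock (MP_eb43e0_pr)

The peacock is piecewise constant, with jumps at the times `1 - 2^(-k)` and at the time `1`.
-/

set_option autoImplicit false

open MeasureTheory ProbabilityTheory Filter Topology Set
open scoped NNReal ENNReal unitInterval

namespace Pool.Agent.T2h33.LC

/-! ### the notions of the problem -/

/-- `x` is right-continuous and has left limits -/
def IsCadlag (x : I → ℝ) : Prop :=
  ∀ t : I, ContinuousWithinAt x (Ici t) t ∧ ∃ l : ℝ, Tendsto x (𝓝[<] t) (𝓝 l)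

/-- the space `D([0, 1])`, with the σ-algebra generated by the coordinates -/
abbrev D01 : Type := {x : I → ℝ // IsCadlag x}

/-- Skorokhod's distance -/
noncomputable def skd (x y : D01) : ℝ≥0∞ :=
  ⨅ φ : I ≃o I, max (⨆ t : I, edist (φ t) t) (⨆ t : I, edist (x.1 (φ t)) (y.1 t))

/-- continuity for Skorokhod's distance -/
def SkCont (F : D01 → ℝ) : Prop :=
  ∀ x : D01, ∀ ε : ℝ, 0 < ε → ∃ δ : ℝ, 0 < δ ∧ ∀ y : D01, skd y x < ENNReal.ofReal δ → |F y - F x| < ε

/-- weak convergence for the Skorokhod topology -/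
def WeakLim (Pn : ℕ → Measure D01) (P : Measure D01) : Prop :=
  ∀ F : D01 → ℝ, SkCont F → (∃ C : ℝ, ∀ x, |F x| ≤ C) →
    Tendsto (fun n => ∫ x, F x ∂(Pn n)) atTop (𝓝 (∫ x, F x ∂P))

/-- convex order, for finite measures with finite first moment -/
def CvxLE (α η : Measure ℝ) : Prop :=
  α univ = η univ ∧ ∀ f : ℝ → ℝ, ConvexOn ℝ univ f → Integrable f α → Integrable f η →
    ∫ x, f x ∂α ≤ ∫ x, f x ∂η

/-- Kantorovich distance -/
noncomputable def kant (α η : Measure ℝ) : ℝ≥0∞ :=
  ⨅ (π : Measure (ℝ × ℝ)) (_ : π.map Prod.fst = α ∧ π.map Prod.snd = η), ∫⁻ p, edist p.1 p.2 ∂π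

/-- peacocks -/
def IsPeacock (μ : I → Measure ℝ) : Prop :=
  (∀ t, IsProbabilityMeasure (μ t) ∧ Integrable (fun x => x) (μ t)) ∧
    ∀ s t, s ≤ t → CvxLE (μ s) (μ t)

/-- right-continuity for the Kantorovich distance -/
def RightCont (μ : I → Measure ℝ) : Prop :=
  ∀ t : I, Tendsto (fun s => kant (μ s) (μ t)) (𝓝[≥] t) (𝓝 0)

/-- `η` is the shadow of `α` in `ν` -/
def IsShadow (ν α η : Measure ℝ) : Prop :=
  η ≤ ν ∧ CvxLE α η ∧ ∀ η' : Measure ℝ, η' ≤ ν → CvxLE α η' → CvxLE η η'

/-- `π` is a martingale coupling of `μ` and `ν` -/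
def IsMC (μ ν : Measure ℝ) (π : Measure (ℝ × ℝ)) : Prop :=
  π.map Prod.fst = μ ∧ π.map Prod.snd = ν ∧
    ∀ B : Set ℝ, MeasurableSet B → ∫ p in Prod.fst ⁻¹' B, p.2 ∂π = ∫ p in Prod.fst ⁻¹' B, p.1 ∂π

/-- `π` is the left-curtain coupling of `μ` and `ν` -/
def IsCurt (μ ν : Measure ℝ) (π : Measure (ℝ × ℝ)) : Prop :=
  IsMC μ ν π ∧ ∀ x : ℝ, (π.restrict (Prod.fst ⁻¹' Iic x)).map Prod.fst = μ.restrict (Iic x) ∧
    IsShadow ν (μ.restrict (Iic x)) ((π.restrict (Prod.fst ⁻¹' Iic x)).map Prod.snd)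

/-- partitions `0 = t 0 < … < t Q = 1` -/
structure Part where
  Q : ℕ
  t : Fin (Q + 1) → I
  mono : StrictMono t
  zero : t 0 = 0
  one : t (Fin.last Q) = 1

/-- the mesh of the partitions tends to zero -/
def MeshLim (τ : ℕ → Part) : Prop :=
  ∀ ε : ℝ, 0 < ε → ∀ᶠ n in atTop, ∀ k : Fin (τ n).Q, ((τ n).t k.succ : ℝ) - (τ n).t k.castSucc < ε

/-- the past at time `s` -/
@[reducible] def past (s : I) : MeasurableSpace D01 :=
  ⨆ (r : I) (_ : r ≤ s), MeasurableSpace.comap (fun x : D01 => x.1 r) inferInstance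

/-- the present at time `s` -/
@[reducible] def present (s : I) : MeasurableSpace D01 :=
  MeasurableSpace.comap (fun x : D01 => x.1 s) inferInstance

/-- the canonical process is a Markov process under `P` -/
def IsMarkov (P : Measure D01) : Prop :=
  ∀ s u : I, s ≤ u → ∀ B : Set ℝ, MeasurableSet B →
    P[indicator {x : D01 | x.1 u ∈ B} (fun _ => (1 : ℝ)) | past s] =ᵐ[P]
      P[indicator {x : D01 | x.1 u ∈ B} (fun _ => (1 : ℝ)) | present s]

/-- `P` is the law `P^(μ, τ)` -/
def IsPsi (μ : I → Measure ℝ) (τ : Part) (P : Measure D01) : Prop :=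
  IsProbabilityMeasure P ∧ IsMarkov P ∧
    (∀ k : Fin τ.Q, ∀ᵐ x : D01 ∂P, ∀ s : I, τ.t k.castSucc ≤ s → s < τ.t k.succ →
      x.1 s = x.1 (τ.t k.castSucc)) ∧
    ∀ k : Fin τ.Q, IsCurt (μ (τ.t k.castSucc)) (μ (τ.t k.succ))
      (P.map fun x : D01 => (x.1 (τ.t k.castSucc), x.1 (τ.t k.succ)))

/-- the limit curtain processes -/
def LimCurt (μ : I → Measure ℝ) : Set (Measure D01) :=
  {P | IsProbabilityMeasure P ∧ ∃ (τ : ℕ → Part) (Pn : ℕ → Measure D01), MeshLim τ ∧
    (∀ n, IsPsi μ (τ n) (Pn n)) ∧ WeakLim Pn P}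

/-! ### the example -/

/-- `idx t = k` for `1 - 2^(-k) ≤ t < 1 - 2^(-k-1)` -/
noncomputable def idx (t : I) : ℕ := Nat.log 2 ⌊(1 - (t : ℝ))⁻¹⌋₊

theorem idx_eq_iff {t : I} (ht : (t : ℝ) < 1) (k : ℕ) :
    idx t = k ↔ 1 - (1 / 2 : ℝ) ^ k ≤ t ∧ (t : ℝ) < 1 - (1 / 2 : ℝ) ^ (k + 1) := by
  have h0 : 0 < 1 - (t : ℝ) := sub_pos.2 ht
  have h1 : (1 : ℝ) ≤ (1 - (t : ℝ))⁻¹ := by
    rw [one_le_inv₀ h0]
    linarith [t.2.1]
  have hf : ⌊(1 - (t : ℝ))⁻¹⌋₊ ≠ 0 := by
    have : 1 ≤ ⌊(1 - (t : ℝ))⁻¹⌋₊ := (Nat.one_le_floor_iff _).2 h1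
    omega
  unfold idx
  rw [Nat.log_eq_iff (Or.inr ⟨by norm_num, hf⟩), Nat.le_floor_iff (by positivity),
    Nat.floor_lt (by positivity)]
  push_cast
  have e1 : (2 : ℝ) ^ k ≤ (1 - (t : ℝ))⁻¹ ↔ 1 - (1 / 2 : ℝ) ^ k ≤ t := by
    rw [le_inv_comm₀ (by positivity) h0, ← inv_pow]
    norm_num
    constructor <;> intro h <;> linarith
  have e2 : (1 - (t : ℝ))⁻¹ < (2 : ℝ) ^ (k + 1) ↔ (t : ℝ) < 1 - (1 / 2 : ℝ) ^ (k + 1) := by
    rw [inv_lt_comm₀ h0 (by positivity), ← inv_pow]
    norm_num
    constructor <;> intro h <;> linarith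
  rw [e1, e2]

/-- the path which is equal to `b k` while `idx = k`, and to `z` at the time `1` -/
noncomputable def pth (b : ℕ → ℝ) (z : ℝ) (t : I) : ℝ := if (t : ℝ) < 1 then b (idx t) else z

theorem cad_pth {b : ℕ → ℝ} {l : ℝ} (hb : Tendsto b atTop (𝓝 l)) (z : ℝ) : IsCadlag (pth b z) := by
  intro t
  rcases lt_or_eq_of_le t.2.2 with ht | ht
  · obtain ⟨k, hk⟩ : ∃ k, idx t = k := ⟨_, rfl⟩
    have h1 := (idx_eq_iff ht k).1 hk
    constructor
    · have hev : pth b z =ᶠ[𝓝[≥] t] fun _ => b k := by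
        have : ∀ᶠ s : I in 𝓝 t, (s : ℝ) < 1 - (1 / 2 : ℝ) ^ (k + 1) :=
          (continuous_subtype_val.tendsto t).eventually (gt_mem_nhds h1.2)
        filter_upwards [mem_nhdsWithin_of_mem_nhds this, self_mem_nhdsWithin] with s hs1 hs2
        have hs3 : (t : ℝ) ≤ s := hs2
        have hs4 : (s : ℝ) < 1 := by
          have : (0 : ℝ) < (1 / 2 : ℝ) ^ (k + 1) := by positivity
          have hs1' : (s : ℝ) < 1 - (1 / 2 : ℝ) ^ (k + 1) := hs1
          linarith
        unfold pth
        rw [if_pos hs4, (idx_eq_iff hs4 k).2 ⟨h1.1.trans hs3, hs1⟩]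
      have hval : pth b z t = b k := by unfold pth; rw [if_pos ht, hk]
      unfold ContinuousWithinAt
      rw [hval]
      exact tendsto_const_nhds.congr' hev.symm
    · rcases eq_or_lt_of_le h1.1 with h2 | h2
      · -- `t` is the left end point
        rcases Nat.eq_zero_or_pos k with h3 | h3
        · subst h3
          refine ⟨0, ?_⟩
          have h4 : t = 0 := by
            apply Subtype.ext
            rw [← h2]
            simp
          have : 𝓝[<] t = ⊥ := by
            rw [h4]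
            have : Iio (0 : I) = ∅ := by
              ext x
              simp
            rw [this, nhdsWithin_empty]
          rw [this]
          exact tendsto_bot
        · refine ⟨b (k - 1), ?_⟩
          have hev : pth b z =ᶠ[𝓝[<] t] fun _ => b (k - 1) := by
            have h5 : 1 - (1 / 2 : ℝ) ^ (k - 1) < t := by
              rw [← h2]
              have : (1 / 2 : ℝ) ^ k < (1 / 2 : ℝ) ^ (k - 1) :=
                pow_lt_pow_right_of_lt_one₀ (by norm_num) (by norm_num) (by omega)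
              linarith
            have : ∀ᶠ s : I in 𝓝 t, 1 - (1 / 2 : ℝ) ^ (k - 1) < (s : ℝ) :=
              (continuous_subtype_val.tendsto t).eventually (lt_mem_nhds h5)
            filter_upwards [mem_nhdsWithin_of_mem_nhds this, self_mem_nhdsWithin] with s hs1 hs2
            have hs3 : (s : ℝ) < t := hs2
            have hs4 : (s : ℝ) < 1 := hs3.trans ht
            have hs1' : 1 - (1 / 2 : ℝ) ^ (k - 1) < (s : ℝ) := hs1
            unfold pth
            rw [if_pos hs4, (idx_eq_iff hs4 (k - 1)).2 ⟨hs1'.le, ?_⟩]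
            rw [Nat.sub_add_cancel h3, h2]
            exact hs3
          exact tendsto_const_nhds.congr' hev.symm
      · refine ⟨b k, ?_⟩
        have hev : pth b z =ᶠ[𝓝[<] t] fun _ => b k := by
          have : ∀ᶠ s : I in 𝓝 t, 1 - (1 / 2 : ℝ) ^ k < (s : ℝ) :=
            (continuous_subtype_val.tendsto t).eventually (lt_mem_nhds h2)
          filter_upwards [mem_nhdsWithin_of_mem_nhds this, self_mem_nhdsWithin] with s hs1 hs2
          have hs3 : (s : ℝ) < t := hs2
          have hs4 : (s : ℝ) < 1 := hs3.trans ht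
          have hs1' : 1 - (1 / 2 : ℝ) ^ k < (s : ℝ) := hs1
          unfold pth
          rw [if_pos hs4, (idx_eq_iff hs4 k).2 ⟨hs1'.le, hs3.trans h1.2⟩]
        exact tendsto_const_nhds.congr' hev.symm
  · have h4 : t = 1 := Subtype.ext ht
    subst h4
    constructor
    · have : Ici (1 : I) = {1} := by
        ext x
        simp only [mem_Ici, mem_singleton_iff]
        exact ⟨fun h => le_antisymm x.2.2 h, fun h => h.ge⟩
      rw [this]
      exact continuousWithinAt_singleton
    · refine ⟨l, ?_⟩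
      rw [Metric.tendsto_nhds]
      intro ε hε
      rw [Metric.tendsto_atTop] at hb
      obtain ⟨N, hN⟩ := hb ε hε
      have h5 : 1 - (1 / 2 : ℝ) ^ N < ((1 : I) : ℝ) := by
        have : (0 : ℝ) < (1 / 2 : ℝ) ^ N := by positivity
        simp only [Icc.coe_one]
        linarith
      have : ∀ᶠ s : I in 𝓝 (1 : I), 1 - (1 / 2 : ℝ) ^ N < (s : ℝ) :=
        (continuous_subtype_val.tendsto (1 : I)).eventually (lt_mem_nhds h5)
      filter_upwards [mem_nhdsWithin_of_mem_nhds this, self_mem_nhdsWithin] with s hs1 hs2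
      have hs4 : (s : ℝ) < 1 := hs2
      have hs1' : 1 - (1 / 2 : ℝ) ^ N < (s : ℝ) := hs1
      unfold pth
      rw [if_pos hs4]
      apply hN
      obtain ⟨k, hk⟩ : ∃ k, idx s = k := ⟨_, rfl⟩
      have h6 := (idx_eq_iff hs4 k).1 hk
      rw [hk]
      by_contra hcon
      push Not at hcon
      have h7 : (1 / 2 : ℝ) ^ N ≤ (1 / 2 : ℝ) ^ (k + 1) :=
        pow_le_pow_of_le_one (by norm_num) (by norm_num) (by omega)
      linarith [h6.2]

/-- the positions -/
noncomputable def a (k : ℕ) : ℝ := (1 / 2) ^ (k + 1)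

/-- `1 - a k` -/
noncomputable def g (k : ℕ) : ℝ := 1 - a k

/-- the mass at `a k` -/
noncomputable def m (k : ℕ) : ℝ := 3 / 10 / g k

/-- the marginals before the time `1` -/
noncomputable def S (k : ℕ) : Measure ℝ :=
  ENNReal.ofReal (m (k + 1)) • Measure.dirac (a (k + 1)) + ENNReal.ofReal (m k) • Measure.dirac (a k) +
    ENNReal.ofReal (1 - m (k + 1) - m k) • Measure.dirac 1

/-- the final marginal -/
noncomputable def Fm : Measure ℝ :=
  ENNReal.ofReal (3 / 20) • Measure.dirac (-1) + ENNReal.ofReal (3 / 10) • Measure.dirac 0 +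
    ENNReal.ofReal (11 / 20) • Measure.dirac 1

/-- the peacock -/
noncomputable def mu (t : I) : Measure ℝ := if (t : ℝ) < 1 then S (idx t) else Fm

/-- the position, while `idx = k`, of the particle which lives on the indices of the parity of `e` -/
noncomputable def pos (e k : ℕ) : ℝ := a (if k % 2 = e % 2 then k else k + 1)

/-- the particle which is absorbed in `1` when it leaves `a i` -/
noncomputable def bA (i k : ℕ) : ℝ := if k ≤ i then pos i k else 1

/-- the particle which does not move after `idx = N` -/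
noncomputable def bN (N e k : ℕ) : ℝ := pos e (min k N)

theorem tendsto_pos (e : ℕ) : Tendsto (pos e) atTop (𝓝 0) := by
  have h1 : Tendsto (fun k : ℕ => (1 / 2 : ℝ) ^ k) atTop (𝓝 0) :=
    tendsto_pow_atTop_nhds_zero_of_lt_one (by norm_num) (by norm_num)
  refine squeeze_zero (fun k => ?_) (fun k => ?_) h1
  · unfold pos a
    positivity
  · unfold pos a
    apply pow_le_pow_of_le_one (by norm_num) (by norm_num)
    split_ifs <;> omega

theorem tendsto_bA (i : ℕ) : Tendsto (bA i) atTop (𝓝 1) := by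
  refine tendsto_const_nhds.congr' ?_
  filter_upwards [eventually_gt_atTop i] with k hk
  unfold bA
  rw [if_neg (by omega)]

theorem tendsto_bN (N e : ℕ) : Tendsto (bN N e) atTop (𝓝 (pos e N)) := by
  refine tendsto_const_nhds.congr' ?_
  filter_upwards [eventually_ge_atTop N] with k hk
  unfold bN
  rw [min_eq_right hk]

/-- the path of the absorbed particle -/
noncomputable def xA (i : ℕ) : D01 := ⟨pth (bA i) 1, cad_pth (tendsto_bA i) 1⟩

/-- the path of the particle which is never absorbed before the time `1`, and then jumps to `z` -/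
noncomputable def xS (e : ℕ) (z : ℝ) : D01 := ⟨pth (pos e) z, cad_pth (tendsto_pos e) z⟩

/-- the same, not moving after `idx = N` -/
noncomputable def xN (N e : ℕ) (z : ℝ) : D01 := ⟨pth (bN N e) z, cad_pth (tendsto_bN N e) z⟩

/-- the mass which is absorbed when it leaves `a i` -/
noncomputable def w (i : ℕ) : ℝ := m i - m (i + 2)

/-- the law of the process on the dyadic partition of level `N` -/
noncomputable def PN (N : ℕ) : Measure D01 :=
  ∑ i ∈ Finset.range N, ENNReal.ofReal (w i) • Measure.dirac (xA i) +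
    (ENNReal.ofReal (3 / 10) • Measure.dirac (xN N (N + 1) 0) +
      ENNReal.ofReal (m (N + 1) - 3 / 10) • Measure.dirac (xN N (N + 1) 1) +
      ENNReal.ofReal (3 / 20) • Measure.dirac (xN N N (-1)) +
      ENNReal.ofReal (m N - 3 / 20) • Measure.dirac (xN N N 1))

/-- the limit along the levels of the parity of `r` -/
noncomputable def PL (r : ℕ) : Measure D01 :=
  Measure.sum (fun i : ℕ => ENNReal.ofReal (w i) • Measure.dirac (xA i)) +
    (ENNReal.ofReal (3 / 10) • Measure.dirac (xS (r + 1) 0) +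
      ENNReal.ofReal (3 / 20) • Measure.dirac (xS r (-1)) +
      ENNReal.ofReal (3 / 20) • Measure.dirac (xS r 1))

/-- the dyadic partition of level `N` -/
noncomputable def grid (N : ℕ) : Part where
  Q := 2 ^ N
  t j := ⟨(j : ℝ) / 2 ^ N, by
    constructor
    · positivity
    · rw [div_le_one (by positivity)]
      have : (j : ℕ) ≤ 2 ^ N := Nat.lt_succ_iff.1 j.2
      exact_mod_cast this⟩
  mono := by
    intro i j hij
    rw [← Subtype.coe_lt_coe]
    simp only
    rw [div_lt_div_iff_of_pos_right (by positivity)]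
    exact_mod_cast hij
  zero := by
    apply Subtype.ext
    simp
  one := by
    apply Subtype.ext
    simp

end Pool.Agent.T2h33.LC
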