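import Pool.Agent.T2h33.LC.Stm

/-!
# Assembly
-/

set_option autoImplicit false

open MeasureTheory ProbabilityTheory Filter Topology Set
open scoped NNReal ENNReal unitInterval

namespace Pool.Agent.T2h33.LC

theorem fin_of (h1 : S_PEA) (h2 : S_RCO) (h3 : S_PRB) (h4 : S_MKL) (h5 : S_NEQ) (h6 : S_MSH)
    (h7 : S_PSI) (h8 : S_WK3) :
    ∃ μ : I → Measure ℝ, IsPeacock μ ∧ RightCont μ ∧ ∃ P P' : Measure D01, P ≠ P' ∧
      P ∈ LimCurt μ ∧ P' ∈ LimCurt μ ∧ IsMarkov P ∧ IsMarkov P' := by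
  refine ⟨mu, h1, h2, PL 0, PL 1, h5, ?_, ?_, h4 0, h4 1⟩
  · exact ⟨h3.2 0, fun n => grid (2 * n + 0), fun n => PN (2 * n + 0), h6 0, fun n => h7 _, h8 0⟩
  · exact ⟨h3.2 1, fun n => grid (2 * n + 1), fun n => PN (2 * n + 1), h6 1, fun n => h7 _, h8 1⟩

end Pool.Agent.T2h33.LC
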