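import Pool.Agent.T2h33.LC.Stm

/-! # PSI: the laws on the dyadic partitions -/

set_option autoImplicit false
set_option linter.all false

open MeasureTheory ProbabilityTheory Filter Topology Set
open scoped NNReal ENNReal unitInterval

namespace Pool.Agent.T2h33.LC

theorem PSI_mu_lt {t : I} (ht : (t : ℝ) < 1) : mu t = S (idx t) := if_pos ht

theorem PSI_mu_one : mu 1 = Fm := if_neg (by simp)

theorem prove_PSI (h1 : S_PRB) (h2 : S_MKN) (h3 : S_CST) (h4 : S_GRD) (h5 : S_SC0) (h6 : S_SC1)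
    (h7 : S_SC2) (h8 : S_LW0) (h9 : S_LW2) (h10 : S_LW3) : S_PSI := by
  intro N
  refine ⟨h1.1 N, h2 N, h3 N, fun j => ?_⟩
  obtain ⟨ha, hb, hc, -⟩ := h4 N j
  rw [PSI_mu_lt ha]
  rcases hc with ⟨hl, hi⟩ | ⟨hl, hi, hk | hk⟩
  · rw [hl, PSI_mu_one, h10 N _ ha hi, hi]
    exact h7 N
  · rw [PSI_mu_lt hl, h8 N _ _ _ ha hl rfl hk hb, hk]
    refine h5 _ ?_ ?_
    · rw [S_eq]
      infer_instance
    · rw [S_eq]
      exact at3_int _
  · rw [PSI_mu_lt hl, h9 N _ _ _ ha hl rfl hk (by rw [← hk]; exact hi), hk]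
    exact h6 _

end Pool.Agent.T2h33.LC
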