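import Pool.Agent.T2h33.LC.Basic

/-!
# The tasks of the board `t33c_tasks`

Every task is one of the propositions below. The task `X` asks for the file
`Pool/Agent/T2h33/LC/X.lean` (`import Pool.Agent.T2h33.LC.Stm`) with a theorem
`theorem Pool.Agent.T2h33.LC.prove_X (h₁ : S_…) … : S_X`, where the hypotheses are those which are
listed in the docstring of `S_X` (no hypothesis if none is listed).
-/

set_option autoImplicit false

open MeasureTheory ProbabilityTheory Filter Topology Set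
open scoped NNReal ENNReal unitInterval

namespace Pool.Agent.T2h33.LC

/-- **ATO**. A measure below three atoms is of the same form.
Proof: `u' = (η {z₁}).toReal` etc. The complement of `{z₁, z₂, z₃}` is an `η`-null set, and
`η {z₁} ≤ at3 … {z₁} = ofReal u`; then `Measure.ext` (split `A = (A ∩ {z₁}) ∪ …`, or use
`Measure.restrict` on the finite set, `Measure.sum_smul_dirac`-like lemmas, …). -/
def S_ATO : Prop := ∀ u v w z₁ z₂ z₃ : ℝ, 0 ≤ u → 0 ≤ v → 0 ≤ w → z₁ < z₂ → z₂ < z₃ →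
  ∀ η : Measure ℝ, η ≤ at3 u v w z₁ z₂ z₃ → ∃ u' v' w' : ℝ, 0 ≤ u' ∧ u' ≤ u ∧ 0 ≤ v' ∧ v' ≤ v ∧
    0 ≤ w' ∧ w' ≤ w ∧ η = at3 u' v' w' z₁ z₂ z₃

/-- **SHB**, hypothesis `S_ATO`. A measure which uses all the mass of the two left atoms is a shadow.
Proof: `η = at3 u v w' … ≤ at3 u v w …` is clear (`Measure.le_iff`, monotonicity of `ofReal`).
Let `η' ≤ at3 u v w …` and `CvxLE α η'`; by ATO `η' = at3 u' v' w'' …` with `u' ≤ u`, `v' ≤ v`.
The masses of `η` and `η'` are equal (both are the mass of `α`; `at3_univ`) and so are the means: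
`CvxLE α η` with `f = id` and `f = -id` (`Integrable id α` is a hypothesis) gives
`∫ x ∂α = ∫ x ∂η`, and the same holds for `η'`. With `at3_integral`:
`u + v + w' = u' + v' + w''`, `u z₁ + v z₂ + w' z₃ = u' z₁ + v' z₂ + w'' z₃`, hence
`(u - u') (z₃ - z₁) + (v - v') (z₃ - z₂) = 0`, so that `u' = u`, `v' = v`, `w'' = w'` and `η' = η`. -/
def S_SHB : Prop := ∀ u v w z₁ z₂ z₃ w' : ℝ, 0 ≤ u → 0 ≤ v → 0 ≤ w' → w' ≤ w → z₁ < z₂ → z₂ < z₃ →
  ∀ α : Measure ℝ, Integrable (fun x => x) α → CvxLE α (at3 u v w' z₁ z₂ z₃) →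
    IsShadow (at3 u v w z₁ z₂ z₃) α (at3 u v w' z₁ z₂ z₃)

/-- **SHC**, hypothesis `S_ATO`. A measure which uses all the mass of the middle atom, and nothing of
the left one, is a shadow.
Proof: as SHB up to: `η' = at3 u' v' w'' …` with `v' ≤ v`, `0 ≤ u'`,
`v + w' = u' + v' + w''`, `v z₂ + w' z₃ = u' z₁ + v' z₂ + w'' z₃`. Then
`(w'' - w') (z₃ - z₂) = u' (z₂ - z₁) ≥ 0`, so `w' ≤ w''`, and `two_point` with `p = v - v'`,
`q = u'`, `r = w'' - w'` gives `CvxLE η η'` (`cvxLE_at3`). -/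
def S_SHC : Prop := ∀ u v w z₁ z₂ z₃ w' : ℝ, 0 ≤ u → 0 ≤ v → 0 ≤ w' → w' ≤ w → z₁ < z₂ → z₂ < z₃ →
  ∀ α : Measure ℝ, Integrable (fun x => x) α → CvxLE α (at3 0 v w' z₁ z₂ z₃) →
    IsShadow (at3 u v w z₁ z₂ z₃) α (at3 0 v w' z₁ z₂ z₃)

/-- **SC0**. The left-curtain coupling of `μ` and `μ` is the identity coupling.
Proof: `IsMC`: `Measure.map_map`; `∫ p in fst ⁻¹' B, p.2 ∂(μ.map diag) = ∫ y in B, y ∂μ` (both sides).
For `x`: `(μ.map diag).restrict (fst ⁻¹' Iic x) = (μ.restrict (Iic x)).map diag`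
(`Measure.restrict_map`), both marginals of which are `α = μ.restrict (Iic x)`, and `IsShadow μ α α`
holds since `α ≤ μ` and `CvxLE α α`. -/
def S_SC0 : Prop := ∀ μ : Measure ℝ, IsFiniteMeasure μ → Integrable (fun x => x) μ →
  IsCurt μ μ (μ.map fun y => (y, y))

/-- **SC1**, hypothesis `S_SHB`. `cp1 k` is the left-curtain coupling of `S k` and `S (k + 1)`.
Proof. Marginals: direct (`Measure.map_add`, `Measure.map_smul`, `Measure.map_dirac`; regroup the
masses with `ENNReal.ofReal_add`). Martingale property: integral over a sum of atoms; the identity to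
be used is `m (k+2) * a (k+2) + (m k - m (k+2)) * 1 = m k * a k` (`m_mul_a`).
Shadows, with `ν = S (k + 1) = at3 (m (k+2)) (m (k+1)) _ (a (k+2)) (a (k+1)) 1` (`S_eq`):
* `x < a (k+1)`: both measures are `0`;
* `a (k+1) ≤ x < a k`: both measures are `α = m (k+1) δ_{a (k+1)} ≤ ν` and `IsShadow ν α α` is clear;
* `a k ≤ x < 1`: `α = m (k+1) δ_{a (k+1)} + m k δ_{a k}` and the second marginal is
  `at3 (m (k+2)) (m (k+1)) (m k - m (k+2)) (a (k+2)) (a (k+1)) 1`: use SHB; `CvxLE` by `cvxLE_at3` and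
  `two_point` (`m k f(a k) ≤ m (k+2) f(a (k+2)) + (m k - m (k+2)) f 1`);
* `1 ≤ x`: `α = S k`, the second marginal is `S (k+1)`: SHB with `w' = w`. -/
def S_SC1 : Prop := ∀ k : ℕ, IsCurt (S k) (S (k + 1)) (cp1 k)

/-- **SC2**, hypotheses `S_SHB`, `S_SHC`. `cp2 N` is the left-curtain coupling of `S N` and `Fm`.
Proof. As SC1; `ν = Fm = at3 (3/20) (3/10) (11/20) (-1) 0 1`. Martingale property: `m_mul_a`:
`m (N+1) - 3/10 = m (N+1) * a (N+1)` and `-3/20 + (m N - 3/20) = m N * a N`. Shadows: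
* `x < a (N+1)`: `0`;
* `a (N+1) ≤ x < a N`: `α = m (N+1) δ_{a (N+1)}`, second marginal
  `at3 0 (3/10) (m (N+1) - 3/10) (-1) 0 1`: SHC;
* `a N ≤ x < 1`: second marginal `at3 (3/20) (3/10) (m (N+1) - 3/10 + (m N - 3/20)) (-1) 0 1`: SHB;
* `1 ≤ x`: everything, SHB with `w' = w`. -/
def S_SC2 : Prop := ∀ N : ℕ, IsCurt (S N) Fm (cp2 N)

/-- **PEA**. `mu` is a peacock.
Proof: `at3` measures integrate everything (`at3_int`) and have mass `u + v + w` (`at3_univ`).
`CvxLE (S k) (S (k+1))` and `CvxLE (S k) Fm` by `cvxLE_at3` and `two_point` (see SC1, SC2; for `Fm` use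
`m (k+1) f(a (k+1)) ≤ 3/10 f 0 + (m (k+1) - 3/10) f 1` and
`m k f(a k) ≤ 3/20 f(-1) + (m k - 3/20) f 1`). Then `CvxLE (S j) (S k)` for `j ≤ k` by induction
(transitivity is fine because every function is integrable for `S _`), `idx_mono` for the times. -/
def S_PEA : Prop := IsPeacock mu

/-- **RCO**. `mu` is right-continuous for the Kantorovich distance.
Proof: `kant α α = 0` (coupling `α.map diag`). For `t < 1`, `mu s = mu t` for `s ≥ t` near `t`
(`idx_eq_iff`, see the proof of `cad_pth`); for `t = 1` only `s = 1` matters. -/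
def S_RCO : Prop := RightCont mu

/-- **LW1**. The law of `(X_s, X_u)` under `PN N` does not depend on `N` as soon as
`idx s, idx u ≤ N`.
Proof: `PN (N+1)` has the additional absorbed particle `xA N` with mass `w N = m N - m (N+2)`; before
`idx = N` (included) its positions are `bA N k = pos N k`. So the particles of parity `N` have mass
`3/20 + (m N - 3/20) = m N` under `PN N` and `w N + (3/10 + (m (N+2) - 3/10)) = m N` under `PN (N+1)`
and those of parity `N + 1` have mass `3/10 + (m (N+1) - 3/10) = m (N+1)` under `PN N` and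
`3/20 + (m (N+1) - 3/20)` under `PN (N+1)`; `bN N e k = pos e k` for `k ≤ N`, `pos_congr` for
`pos (N+2) k = pos N k`. Use `Measure.map_add`, `Measure.map_smul`, `Measure.map_dirac`,
`xA_lt`, `xN_lt`, `Finset.sum_range_succ` and `ENNReal.ofReal_add`, and keep the sum over `range N`
as it is. -/
def S_LW1 : Prop := ∀ (N : ℕ) (s u : I), (s : ℝ) < 1 → (u : ℝ) < 1 → idx s ≤ N → idx u ≤ N →
  (PN (N + 1)).map (fun x : D01 => (x.1 s, x.1 u)) = (PN N).map (fun x : D01 => (x.1 s, x.1 u))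

/-- **LW0**, hypothesis `S_LW1`. Proof: by LW1 and induction it is enough to look at `N = k`:
the particles `xA i`, `i < k`, are at `1` and have total mass `∑ w i = 1 - m k - m (k+1)` (`sum_w`), the
particles of parity `k` are at `pos k k = a k` and have mass `m k`, those of parity `k + 1` are at
`a (k+1)` and have mass `m (k+1)`. -/
def S_LW0 : Prop := ∀ (N k : ℕ) (s u : I), (s : ℝ) < 1 → (u : ℝ) < 1 → idx s = k → idx u = k →
  k ≤ N → (PN N).map (fun x : D01 => (x.1 s, x.1 u)) = (S k).map fun y => (y, y)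

/-- **LW2**, hypothesis `S_LW1`. Proof: by LW1 and induction it is enough to look at `N = k + 1`:
`xA i`, `i < k`, are at `(1, 1)`, total mass `1 - m k - m (k+1)`; `xA k` is at `(a k, 1)`, mass
`w k = m k - m (k+2)`; parity `k+2`: at `(a k, a (k+2))`, mass `m (k+2)`; parity `k+1`: at
`(a (k+1), a (k+1))`, mass `m (k+1)`. -/
def S_LW2 : Prop := ∀ (N k : ℕ) (s u : I), (s : ℝ) < 1 → (u : ℝ) < 1 → idx s = k → idx u = k + 1 →
  k + 1 ≤ N → (PN N).map (fun x : D01 => (x.1 s, x.1 u)) = cp1 k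

/-- **LW3**. Proof: direct: `xA i`, `i < N`, are at `(1, 1)`, total mass `1 - m N - m (N+1)`; and the
four other particles give the four other atoms of `cp2 N`. -/
def S_LW3 : Prop := ∀ (N : ℕ) (s : I), (s : ℝ) < 1 → idx s = N →
  (PN N).map (fun x : D01 => (x.1 s, x.1 1)) = cp2 N

/-- **GRD**. The cells of the dyadic partition of level `N`.
Proof: let `t = j / 2^N`, `k = idx t`. Since `j + 1 ≤ 2^N`, `t ≤ 1 - 2^(-N)`, hence `k ≤ N`
(`idx_eq_iff`). If `k < N` then `1 - 2^(-(k+1)) = (2^N - 2^(N-k-1)) / 2^N` is a point of the partition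
which is larger than `t`, so that `t' = (j+1)/2^N ≤ 1 - 2^(-(k+1))`; if `<` then `idx t' = k`, if `=` then
`idx t' = k + 1 ≤ N`; and `idx s = k` for `t ≤ s < t'`. If `k = N` then `t ≥ 1 - 2^(-N)`, so that
`j + 1 = 2^N`, `t' = 1`, and `idx s ≥ N` for `t ≤ s < 1` (`idx_mono`). -/
def S_GRD : Prop := ∀ (N : ℕ) (j : Fin (grid N).Q),
  (((grid N).t j.castSucc : I) : ℝ) < 1 ∧ idx ((grid N).t j.castSucc) ≤ N ∧
  (((grid N).t j.succ = 1 ∧ idx ((grid N).t j.castSucc) = N) ∨
    ((((grid N).t j.succ : I) : ℝ) < 1 ∧ idx ((grid N).t j.succ) ≤ N ∧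
      (idx ((grid N).t j.succ) = idx ((grid N).t j.castSucc) ∨
        idx ((grid N).t j.succ) = idx ((grid N).t j.castSucc) + 1))) ∧
  ∀ s : I, (grid N).t j.castSucc ≤ s → s < (grid N).t j.succ →
    (s : ℝ) < 1 ∧ min (idx s) N = idx ((grid N).t j.castSucc)

/-- **MSH**. Proof: the mesh is `2^(-(2n+r))`. -/
def S_MSH : Prop := ∀ r : ℕ, MeshLim fun n => grid (2 * n + r)

/-- **CST**, hypothesis `S_GRD`. The process is constant on the cells under `PN N`.
Proof: `PN N` is a finite sum of atoms: `ae_add_measure_iff`, `Measure.ae_smul_measure_iff`,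
`ae_dirac_eq` (there is an instance `MeasurableSingletonClass D01`). For `xN N e z` the value at `s < 1`
is `pos e (min (idx s) N)`: GRD; for `xA i`, `i < N`: `bA i k` depends only on `min k N`. -/
def S_CST : Prop := ∀ (N : ℕ) (j : Fin (grid N).Q), ∀ᵐ x : D01 ∂(PN N), ∀ s : I,
  (grid N).t j.castSucc ≤ s → s < (grid N).t j.succ → x.1 s = x.1 ((grid N).t j.castSucc)

/-- **MKV**. A Markov criterion for laws on countably many paths.
Proof. Let `s ≤ u`, `B` measurable, `A = {x | x.1 u ∈ B}`. If `s = 1` then `u = 1` and both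
conditional expectations are the indicator of `A`, which is `present 1`-measurable
(`condExp_of_stronglyMeasurable`, `present_le_past`). Let `s < 1` and
`g = P[1_A | present s]`. Use `ae_eq_condExp_of_forall_setIntegral_eq` for the σ-algebra `past s` (`g` is
`past s`-strongly measurable since `present s ≤ past s`): it remains to see
`∫ x in E, g x ∂P = ∫ x in E, 1_A x ∂P` for `E` measurable for `past s`.
(i) If `E` is `past s`-measurable, `x ∈ E` and `y` agrees with `x` on `[0, s]`, then `y ∈ E`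
(induction on the generation of the σ-algebra; e.g. `past s ≤ comap (restriction to [0, s])`, or
`MeasurableSpace.generateFrom` induction).
(ii) `V = {v | v ≠ 1 ∧ ∃ x ∈ C ∩ E, x.1 s = v}` is countable, hence measurable; put
`E' = {x | x.1 s ∈ V}`, a `present s`-measurable set. By (i) and the hypothesis on `C`:
`E ∩ C ∩ {x | x.1 s ≠ 1} = E' ∩ C`.
(iii) With `Z = {x | x.1 s = 1}` (`present s`-measurable): `1_A = 1_{1 ∈ B}` on `C ∩ Z`, so
`g = 1_{1 ∈ B}` a.e. on `Z` (`condExp_indicator`: `P[Z.indicator 1_A | present s] = Z.indicator g`, and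
the left side is the indicator of `Z` times a constant).
(iv) `∫_E g = ∫_{E'} g + ∫_{E ∩ Z} g = ∫_{E'} 1_A + ∫_{E ∩ Z} 1_A = ∫_E 1_A`
(`setIntegral_condExp` on `E'`; `P Cᶜ = 0`). -/
def S_MKV : Prop := ∀ (P : Measure D01) (C : Set D01), IsProbabilityMeasure P → C.Countable →
  P Cᶜ = 0 → (∀ x ∈ C, ∀ s u : I, s ≤ u → x.1 s = 1 → x.1 u = 1) →
  (∀ x ∈ C, ∀ y ∈ C, ∀ s : I, (s : ℝ) < 1 → x.1 s = y.1 s → x.1 s ≠ 1 → ∀ r ≤ s, x.1 r = y.1 r) →
  IsMarkov P

/-- **PRB**. Proof: `PN N univ = ofReal (∑ w i) + … = 1` (`sum_w`); `PL r univ`: `hasSum_w`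
(`ENNReal.ofReal_tsum_of_nonneg`). -/
def S_PRB : Prop := (∀ N, IsProbabilityMeasure (PN N)) ∧ ∀ r, IsProbabilityMeasure (PL r)

/-- **MKN**, hypotheses `S_PRB`, `S_MKV`. Proof: `C = {xA i | i < N} ∪ {the four others}`.
`xA i` is at `1` iff `i < idx` (`pos_ne_one`) and stays there; `xN N e z` is never at `1` before the
time `1`. If two particles are at the same place `≠ 1` at time `s < 1`, with `k = idx s`, they are
`pos e (min k N) = pos e' (min k N)` (for `xA i`: `e = i`, `k ≤ i < N`), thus `e % 2 = e' % 2`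
(`pos_eq_iff`) and the positions at `r ≤ s` are the same (`pos_congr`, `idx_mono`). -/
def S_MKN : Prop := ∀ N, IsMarkov (PN N)

/-- **MKL**, hypotheses `S_PRB`, `S_MKV`. Proof: as MKN with
`C = range xA ∪ {xS (r+1) 0, xS r (-1), xS r 1}`. -/
def S_MKL : Prop := ∀ r, IsMarkov (PL r)

/-- **NEQ**. Proof: the event `{x | x.1 0 = 1/2 ∧ x.1 1 = 0}` has mass `0` under `PL 0` and `3/10` under
`PL 1`: `X_1 = 1` for `xA i`, and `xS (r+1) 0` starts from `pos (r+1) 0`, which is `a 0 = 1/2` for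
`r = 1` and `a 1 = 1/4` for `r = 0` (`idx_zero`). -/
def S_NEQ : Prop := PL 0 ≠ PL 1

/-- **WK1**. Proof: `skd (xN N e z) (xS e z) ≤ ofReal (a N)` (take `φ = OrderIso.refl`: for `t < 1` the
distance of the values is `|pos e (min k N) - pos e k|`, which is `0` for `k ≤ N` and at most `a N`
for `k > N`, since `0 < pos e k ≤ a k ≤ a N`), `tendsto_a`, and the definition of `SkCont`
(`skd y x < δ` with `x = xS e z`, `y = xN N e z`). -/
def S_WK1 : Prop := ∀ F : D01 → ℝ, SkCont F → ∀ (e : ℕ) (z : ℝ),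
  Tendsto (fun N => F (xN N e z)) atTop (𝓝 (F (xS e z)))

/-- **WK2**. Proof: `integral_add_measure`, `integral_finset_sum_measure`, `integral_dirac_smul`,
`int_dirac` (no measurability of `F` is needed: `MeasurableSingletonClass D01`); for the second part
`Integrable F (Measure.sum …)` because `F` is bounded (`integrable_sum_measure`-like lemma or
`Integrable.of_bound` with `AEStronglyMeasurable` via `ae`-equality; a function on a measure which is
concentrated on countably many atoms is a.e. measurable), and `hasSum_integral_measure` /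
`integral_sum_measure`. -/
def S_WK2 : Prop := ∀ F : D01 → ℝ, (∃ C : ℝ, ∀ x, |F x| ≤ C) →
  (∀ N, ∫ x, F x ∂(PN N) = ∑ i ∈ Finset.range N, w i * F (xA i) +
    (3 / 10 * F (xN N (N + 1) 0) + (m (N + 1) - 3 / 10) * F (xN N (N + 1) 1) +
      3 / 20 * F (xN N N (-1)) + (m N - 3 / 20) * F (xN N N 1))) ∧
  ∀ r, ∫ x, F x ∂(PL r) = ∑' i, w i * F (xA i) +
    (3 / 10 * F (xS (r + 1) 0) + 3 / 20 * F (xS r (-1)) + 3 / 20 * F (xS r 1))

/-- **WK3**, hypotheses `S_WK1`, `S_WK2`. Proof: by WK2 for `N = 2n + r`, `xN N (N+1) z = xN N (r+1) z`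
and `xN N N z = xN N r z` (`pos_congr`; prove this equality of paths first); the sums converge
(`w i * F (xA i)` is summable since `F` is bounded, `hasSum_w`; `HasSum.tendsto_sum_nat` composed with
`n ↦ 2n + r`), `m (N+1) - 3/10 → 0` (`tendsto_m`) times a bounded function, `m N - 3/20 → 3/20`, and
WK1. -/
def S_WK3 : Prop := ∀ r : ℕ, WeakLim (fun n => PN (2 * n + r)) (PL r)

/-- **PSI**, hypotheses `S_PRB`, `S_MKN`, `S_CST`, `S_GRD`, `S_SC0`, `S_SC1`, `S_SC2`, `S_LW0`, `S_LW2`,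
`S_LW3`. Proof: `mu t = S (idx t)` for `t < 1` and `mu 1 = Fm`; for the cell `j` distinguish the cases of
GRD: same index: LW0 and SC0 (`at3_int`); index + 1: LW2 and SC1; last cell: LW3 and SC2. -/
def S_PSI : Prop := ∀ N : ℕ, IsPsi mu (grid N) (PN N)

end Pool.Agent.T2h33.LC
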